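import Pool.Agent.X228.MTL.Basic

/-!
# MTL-chains coding chains with two commuting order automorphisms

`Alg X` is the chain `k0 < k1 < Y < k2 < k3 < ... < k7 < Z < k8 < k9` where `Y` and `Z` are copies
of the chain `X`.
-/

set_option autoImplicit false

namespace Pool.Agent.X228.MTL

/-- The core: a ten-element chain. -/
inductive K : Type where
  | k0 | k1 | k2 | k3 | k4 | k5 | k6 | k7 | k8 | k9
  deriving DecidableEq

/-- The position of an element of the core. -/
def K.n : K → ℕ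
  | .k0 => 0
  | .k1 => 1
  | .k2 => 2
  | .k3 => 3
  | .k4 => 4
  | .k5 => 5
  | .k6 => 6
  | .k7 => 7
  | .k8 => 8
  | .k9 => 9

theorem K.n_inj {i j : K} (h : i.n = j.n) : i = j := by
  cases i <;> cases j <;> first | rfl | (simp [K.n] at h)

/-- The carrier: the core and two copies of `X`. -/
inductive Alg (X : Type) : Type where
  | c (i : K) : Alg X
  | z (x : X) : Alg X
  | y (x : X) : Alg X

namespace Alg

/-- row -/
def T0 : K → K
  | .k0 => .k0
  | .k1 => .k0
  | .k2 => .k0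
  | .k3 => .k0
  | .k4 => .k0
  | .k5 => .k0
  | .k6 => .k0
  | .k7 => .k0
  | .k8 => .k0
  | .k9 => .k0
/-- row -/
def T1 : K → K
  | .k0 => .k0
  | .k1 => .k0
  | .k2 => .k0
  | .k3 => .k0
  | .k4 => .k0
  | .k5 => .k0
  | .k6 => .k0
  | .k7 => .k0
  | .k8 => .k0
  | .k9 => .k1
/-- row -/
def T2 : K → K
  | .k0 => .k0
  | .k1 => .k0
  | .k2 => .k0
  | .k3 => .k0
  | .k4 => .k0
  | .k5 => .k0
  | .k6 => .k0
  | .k7 => .k0
  | .k8 => .k0
  | .k9 => .k2
/-- row -/
def T3 : K → K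
  | .k0 => .k0
  | .k1 => .k0
  | .k2 => .k0
  | .k3 => .k0
  | .k4 => .k0
  | .k5 => .k0
  | .k6 => .k0
  | .k7 => .k0
  | .k8 => .k1
  | .k9 => .k3
/-- row -/
def T4 : K → K
  | .k0 => .k0
  | .k1 => .k0
  | .k2 => .k0
  | .k3 => .k0
  | .k4 => .k0
  | .k5 => .k0
  | .k6 => .k0
  | .k7 => .k1
  | .k8 => .k1
  | .k9 => .k4
/-- row -/
def T5 : K → K
  | .k0 => .k0
  | .k1 => .k0
  | .k2 => .k0
  | .k3 => .k0
  | .k4 => .k0
  | .k5 => .k0
  | .k6 => .k0
  | .k7 => .k1
  | .k8 => .k2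
  | .k9 => .k5
/-- row -/
def T6 : K → K
  | .k0 => .k0
  | .k1 => .k0
  | .k2 => .k0
  | .k3 => .k0
  | .k4 => .k0
  | .k5 => .k0
  | .k6 => .k1
  | .k7 => .k1
  | .k8 => .k2
  | .k9 => .k6
/-- row -/
def T7 : K → K
  | .k0 => .k0
  | .k1 => .k0
  | .k2 => .k0
  | .k3 => .k0
  | .k4 => .k1
  | .k5 => .k1
  | .k6 => .k1
  | .k7 => .k1
  | .k8 => .k2
  | .k9 => .k7
/-- row -/
def T8 : K → K
  | .k0 => .k0
  | .k1 => .k0
  | .k2 => .k0
  | .k3 => .k1
  | .k4 => .k1
  | .k5 => .k2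
  | .k6 => .k2
  | .k7 => .k2
  | .k8 => .k3
  | .k9 => .k8
/-- row -/
def T9 : K → K
  | .k0 => .k0
  | .k1 => .k1
  | .k2 => .k2
  | .k3 => .k3
  | .k4 => .k4
  | .k5 => .k5
  | .k6 => .k6
  | .k7 => .k7
  | .k8 => .k8
  | .k9 => .k9
/-- The multiplication of the core. -/
def T : K → K → K
  | .k0 => T0
  | .k1 => T1
  | .k2 => T2
  | .k3 => T3
  | .k4 => T4
  | .k5 => T5
  | .k6 => T6
  | .k7 => T7
  | .k8 => T8
  | .k9 => T9
/-- row -/
def R0 : K → K
  | .k0 => .k9
  | .k1 => .k9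
  | .k2 => .k9
  | .k3 => .k9
  | .k4 => .k9
  | .k5 => .k9
  | .k6 => .k9
  | .k7 => .k9
  | .k8 => .k9
  | .k9 => .k9
/-- row -/
def R1 : K → K
  | .k0 => .k8
  | .k1 => .k9
  | .k2 => .k9
  | .k3 => .k9
  | .k4 => .k9
  | .k5 => .k9
  | .k6 => .k9
  | .k7 => .k9
  | .k8 => .k9
  | .k9 => .k9
/-- row -/
def R2 : K → K
  | .k0 => .k8
  | .k1 => .k8
  | .k2 => .k9
  | .k3 => .k9
  | .k4 => .k9
  | .k5 => .k9
  | .k6 => .k9
  | .k7 => .k9
  | .k8 => .k9
  | .k9 => .k9
/-- row -/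
def R3 : K → K
  | .k0 => .k7
  | .k1 => .k8
  | .k2 => .k8
  | .k3 => .k9
  | .k4 => .k9
  | .k5 => .k9
  | .k6 => .k9
  | .k7 => .k9
  | .k8 => .k9
  | .k9 => .k9
/-- row -/
def R4 : K → K
  | .k0 => .k6
  | .k1 => .k8
  | .k2 => .k8
  | .k3 => .k8
  | .k4 => .k9
  | .k5 => .k9
  | .k6 => .k9
  | .k7 => .k9
  | .k8 => .k9
  | .k9 => .k9
/-- row -/
def R5 : K → K
  | .k0 => .k6
  | .k1 => .k7
  | .k2 => .k8
  | .k3 => .k8
  | .k4 => .k8
  | .k5 => .k9
  | .k6 => .k9
  | .k7 => .k9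
  | .k8 => .k9
  | .k9 => .k9
/-- row -/
def R6 : K → K
  | .k0 => .k5
  | .k1 => .k7
  | .k2 => .k8
  | .k3 => .k8
  | .k4 => .k8
  | .k5 => .k8
  | .k6 => .k9
  | .k7 => .k9
  | .k8 => .k9
  | .k9 => .k9
/-- row -/
def R7 : K → K
  | .k0 => .k3
  | .k1 => .k7
  | .k2 => .k8
  | .k3 => .k8
  | .k4 => .k8
  | .k5 => .k8
  | .k6 => .k8
  | .k7 => .k9
  | .k8 => .k9
  | .k9 => .k9
/-- row -/
def R8 : K → K
  | .k0 => .k2
  | .k1 => .k4
  | .k2 => .k7
  | .k3 => .k8
  | .k4 => .k8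
  | .k5 => .k8
  | .k6 => .k8
  | .k7 => .k8
  | .k8 => .k9
  | .k9 => .k9
/-- row -/
def R9 : K → K
  | .k0 => .k0
  | .k1 => .k1
  | .k2 => .k2
  | .k3 => .k3
  | .k4 => .k4
  | .k5 => .k5
  | .k6 => .k6
  | .k7 => .k7
  | .k8 => .k8
  | .k9 => .k9
/-- The residual of the core. -/
def R : K → K → K
  | .k0 => R0
  | .k1 => R1
  | .k2 => R2
  | .k3 => R3
  | .k4 => R4
  | .k5 => R5
  | .k6 => R6
  | .k7 => R7
  | .k8 => R8
  | .k9 => R9

theorem T_assoc (i j k : K) : T (T i j) k = T i (T j k) := by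
  cases i <;> cases j <;> cases k <;> rfl

theorem T_adj (i j k : K) : (T i j).n ≤ k.n ↔ i.n ≤ (R j k).n := by
  cases i <;> cases j <;> cases k <;> decide

theorem T_comm (i j : K) : T i j = T j i := by
  cases i <;> cases j <;> rfl

/-- An auxiliary code of the order. -/
def code {X : Type} : Alg X → ℕ ×ₗ WithBot X
  | .c i => toLex (2 * i.n, ⊥)
  | .z x => toLex (15, (x : WithBot X))
  | .y x => toLex (3, (x : WithBot X))

theorem code_injective {X : Type} : Function.Injective (code (X := X)) := by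
  intro a b h
  cases a <;> cases b <;> simp [code] at h ⊢
  · exact K.n_inj h
  · exact h
  · exact h

section order
variable {X : Type} [LinearOrder X]

noncomputable instance : LinearOrder (Alg X) := LinearOrder.lift' code code_injective

theorem le_def (a b : Alg X) : a ≤ b ↔ code a ≤ code b := Iff.rfl

theorem le_cc (i j : K) : (c i : Alg X) ≤ c j ↔ i.n ≤ j.n := by
  rw [le_def, Prod.Lex.le_iff]
  simp only [code, ofLex_toLex, le_refl, and_true]
  omega

theorem le_cz (i : K) (x : X) : c i ≤ z x ↔ i.n ≤ 7 := by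
  rw [le_def, Prod.Lex.le_iff]
  simp only [code, ofLex_toLex, bot_le, and_true]
  omega

theorem le_cy (i : K) (x : X) : c i ≤ y x ↔ i.n ≤ 1 := by
  rw [le_def, Prod.Lex.le_iff]
  simp only [code, ofLex_toLex, bot_le, and_true]
  omega

theorem le_zc (i : K) (x : X) : z x ≤ c i ↔ 8 ≤ i.n := by
  rw [le_def, Prod.Lex.le_iff]
  simp only [code, ofLex_toLex]
  constructor
  · rintro (h | ⟨h, _⟩) <;> omega
  · intro h; left; omega

theorem le_yc (i : K) (x : X) : y x ≤ c i ↔ 2 ≤ i.n := by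
  rw [le_def, Prod.Lex.le_iff]
  simp only [code, ofLex_toLex]
  constructor
  · rintro (h | ⟨h, _⟩) <;> omega
  · intro h; left; omega

theorem le_zz (x x' : X) : z x ≤ z x' ↔ x ≤ x' := by
  rw [le_def, Prod.Lex.le_iff]
  simp [code]

theorem le_yy (x x' : X) : y x ≤ y x' ↔ x ≤ x' := by
  rw [le_def, Prod.Lex.le_iff]
  simp [code]

theorem le_yz (x x' : X) : y x ≤ z x' ↔ True := by
  rw [le_def, Prod.Lex.le_iff]
  simp [code]

theorem le_zy (x x' : X) : z x ≤ y x' ↔ False := by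
  rw [le_def, Prod.Lex.le_iff]
  simp [code]

end order

section ops
variable {X : Type} [LinearOrder X] (s t : X ≃o X)

/-- Multiplication of `z x` by a constant. -/
def mz (x : X) : K → Alg X
  | .k0 => c .k0
  | .k1 => c .k0
  | .k2 => c .k0
  | .k3 => c .k1
  | .k4 => c .k1
  | .k5 => y (t.symm x)
  | .k6 => y (s.symm x)
  | .k7 => y x
  | .k8 => c .k3
  | .k9 => z x

/-- Multiplication of `y x` by a constant. -/
def my (x : X) : K → Alg X
  | .k9 => y x
  | _ => c .k0

/-- Multiplication. -/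
def mul : Alg X → Alg X → Alg X
  | c i, c j => c (T i j)
  | c i, z x => mz s t x i
  | z x, c i => mz s t x i
  | c i, y x => my x i
  | y x, c i => my x i
  | z _, z _ => c .k3
  | z _, y _ => c .k0
  | y _, z _ => c .k0
  | y _, y _ => c .k0

/-- Residual of a constant into `z x`. -/
def rz (x : X) : K → Alg X
  | .k8 => c .k8
  | .k9 => z x
  | _ => c .k9

/-- Residual of a constant into `y x`. -/
def ry (x : X) : K → Alg X
  | .k0 => c .k9
  | .k1 => c .k9
  | .k2 => c .k8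
  | .k3 => c .k8
  | .k4 => c .k8
  | .k5 => z (t x)
  | .k6 => z (s x)
  | .k7 => z x
  | .k8 => c .k4
  | .k9 => y x

/-- Residual of `z x` into a constant. -/
def zr : K → K
  | .k0 => .k2
  | .k1 => .k4
  | .k2 => .k7
  | .k8 => .k9
  | .k9 => .k9
  | _ => .k8

/-- Residual of `y x` into a constant. -/
def yr : K → K
  | .k0 => .k8
  | .k1 => .k8
  | _ => .k9

/-- Residual. -/
noncomputable def res : Alg X → Alg X → Alg X
  | c i, c j => c (R i j)
  | c i, z x => rz x i
  | c i, y x => ry s t x i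
  | z _, c i => c (zr i)
  | y _, c i => c (yr i)
  | z x, z x' => if x ≤ x' then c .k9 else c .k8
  | y _, z _ => c .k9
  | y x, y x' => if x ≤ x' then c .k9 else c .k8
  | z x, y x' => if x ≤ x' then c .k7 else if x ≤ s x' then c .k6 else
      if x ≤ t x' then c .k5 else c .k4

theorem mul_comm' (a b : Alg X) : mul s t a b = mul s t b a := by
  rcases a with i | x | x <;> rcases b with j | x' | x' <;> try rfl
  simp only [mul, T_comm]

theorem one_mul' (a : Alg X) : mul s t (c .k9) a = a := by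
  rcases a with i | x | x
  · cases i <;> rfl
  · rfl
  · rfl

theorem assoc' (a b d : Alg X) : mul s t (mul s t a b) d = mul s t a (mul s t b d) := by
  rcases a with i | x | x <;> rcases b with j | x' | x' <;> rcases d with k | x'' | x''
  · simp only [mul, T_assoc]
  · cases i <;> cases j <;> rfl
  · cases i <;> cases j <;> rfl
  · cases i <;> cases k <;> rfl
  · cases i <;> rfl
  · cases i <;> rfl
  · cases i <;> cases k <;> rfl
  · cases i <;> rfl
  · cases i <;> rfl
  · cases j <;> cases k <;> rfl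
  · cases j <;> rfl
  · cases j <;> rfl
  · cases k <;> rfl
  · rfl
  · rfl
  · cases k <;> rfl
  · rfl
  · rfl
  · cases j <;> cases k <;> rfl
  · cases j <;> rfl
  · cases j <;> rfl
  · cases k <;> rfl
  · rfl
  · rfl
  · cases k <;> rfl
  · rfl
  · rfl

section adj
variable (h1 : ∀ x, x ≤ s x) (h2 : ∀ x, s x ≤ t x)
include h1 h2

theorem adj' (a b d : Alg X) : mul s t a b ≤ d ↔ a ≤ res s t b d := by
  have e1 : ∀ x x' : X, x ≤ x' → x ≤ s x' := fun x x' h => h.trans (h1 x')
  have e2 : ∀ x x' : X, x ≤ s x' → x ≤ t x' := fun x x' h => h.trans (h2 x')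
  have e3 : ∀ x x' : X, s.symm x ≤ x' ↔ x ≤ s x' := fun x x' => s.symm_apply_le
  have e4 : ∀ x x' : X, t.symm x ≤ x' ↔ x ≤ t x' := fun x x' => t.symm_apply_le
  rcases a with i | x | x <;> rcases b with j | x' | x' <;> rcases d with k | x'' | x''
  · simp only [mul, res, le_cc]; exact T_adj i j k
  · cases j <;> simp only [mul, res, rz, le_cz, le_cc] <;> cases i <;> decide
  · cases j <;> simp only [mul, res, ry, le_cz, le_cc, le_cy] <;> cases i <;> decide
  · cases i <;> simp only [mul, res, mz, le_cc, le_yc, le_zc] <;> cases k <;> decide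
  · by_cases h : x' ≤ x''
    · cases i <;> simp [mul, res, mz, le_cc, le_cz, le_yz, le_zz, h, K.n]
    · cases i <;> simp [mul, res, mz, le_cc, le_cz, le_yz, le_zz, h, K.n]
  · by_cases h : x' ≤ x''
    · have h' := e1 _ _ h
      have h'' := e2 _ _ h'
      cases i <;> simp [mul, res, mz, le_cc, le_cy, le_yy, le_zy, h, h', h'', e3, e4, K.n]
    · by_cases h' : x' ≤ s x''
      · have h'' := e2 _ _ h'
        cases i <;> simp [mul, res, mz, le_cc, le_cy, le_yy, le_zy, h, h', h'', e3, e4, K.n]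
      · by_cases h'' : x' ≤ t x''
        · cases i <;> simp [mul, res, mz, le_cc, le_cy, le_yy, le_zy, h, h', h'', e3, e4, K.n]
        · cases i <;> simp [mul, res, mz, le_cc, le_cy, le_yy, le_zy, h, h', h'', e3, e4, K.n]
  · cases i <;> simp only [mul, res, my, le_cc, le_yc] <;> cases k <;> decide
  · cases i <;> simp [mul, res, my, le_cc, le_cz, le_yz, K.n]
  · by_cases h : x' ≤ x''
    · cases i <;> simp [mul, res, my, le_cc, le_cy, le_yy, h, K.n]
    · cases i <;> simp [mul, res, my, le_cc, le_cy, le_yy, h, K.n]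
  · cases j <;> simp only [mul, res, mz, le_cc, le_yc, le_zc] <;> cases k <;> decide
  · cases j <;> simp [mul, res, mz, rz, le_cc, le_cz, le_yz, le_zz, le_zc, K.n]
  · cases j <;> simp [mul, res, mz, ry, le_cc, le_cy, le_yy, le_zy, le_zc, le_zz, e3, e4, K.n]
  · simp only [mul, res, le_cc, le_zc]; cases k <;> decide
  · simp only [mul, res]; split_ifs <;> simp [le_cz, le_zc, K.n]
  · simp only [mul, res]; split_ifs <;> simp [le_cy, le_zc, K.n]
  · simp only [mul, res, le_cc, le_zc]; cases k <;> decide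
  · simp [mul, res, le_cz, le_zc, K.n]
  · simp only [mul, res]; split_ifs <;> simp [le_cy, le_zc, K.n]
  · cases j <;> simp only [mul, res, my, le_cc, le_yc] <;> cases k <;> decide
  · cases j <;> simp [mul, res, my, rz, le_cz, le_yz, le_yc, K.n]
  · cases j <;> simp [mul, res, my, ry, le_cy, le_yz, le_yc, K.n]
  · simp only [mul, res, le_cc, le_yc]; cases k <;> decide
  · simp only [mul, res]; split_ifs <;> simp [le_cz, le_yc, K.n]
  · simp only [mul, res]; split_ifs <;> simp [le_cy, le_yc, K.n]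
  · simp only [mul, res, le_cc, le_yc]; cases k <;> decide
  · simp [mul, res, le_cz, le_yc, K.n]
  · simp only [mul, res]; split_ifs <;> simp [le_cy, le_yc, K.n]

end adj

end ops

end Alg

/-- A chain with two commuting automorphisms `s ≤ t`, both above the identity. -/
structure Mod where
  X : Type
  [lo : LinearOrder X]
  [ne : Nonempty X]
  s : X ≃o X
  t : X ≃o X
  h1 : ∀ x, x ≤ s x
  h2 : ∀ x, s x ≤ t x

attribute [instance] Mod.lo Mod.ne

/-- The MTL-chain of a chain with automorphisms. -/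
def Mod.Al (M : Mod) : Type := Alg M.X

noncomputable instance (M : Mod) : LinearOrder M.Al := inferInstanceAs (LinearOrder (Alg M.X))

noncomputable instance (M : Mod) : FLew M.Al where
  mul := Alg.mul M.s M.t
  one := Alg.c .k9
  mul_assoc := Alg.assoc' M.s M.t
  one_mul := Alg.one_mul' M.s M.t
  mul_one a := (Alg.mul_comm' M.s M.t _ _).trans (Alg.one_mul' M.s M.t a)
  mul_comm := Alg.mul_comm' M.s M.t
  imp := Alg.res M.s M.t
  zero := Alg.c .k0
  zero_le' a := by
    rcases a with i | x | x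
    · exact (Alg.le_cc _ _).2 (Nat.zero_le _)
    · exact (Alg.le_cz _ _).2 (Nat.zero_le _)
    · exact (Alg.le_cy _ _).2 (Nat.zero_le _)
  le_one' a := by
    rcases a with i | x | x
    · exact (Alg.le_cc _ _).2 (by cases i <;> decide)
    · exact (Alg.le_zc _ _).2 (by decide)
    · exact (Alg.le_yc _ _).2 (by decide)
  adj := Alg.adj' M.s M.t M.h1 M.h2

end Pool.Agent.X228.MTL
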