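import Pool.Agent.X228.MTL.Theta

/-!
# Amalgamation in the classes `K_θ`
-/

set_option autoImplicit false

namespace Pool.Agent.X228.MTL


section am
variable {M M' : Mod} (r : M.X → M'.X → Prop)

/-- Partial isomorphisms closed under the automorphisms. -/
structure PIso : Prop where
  le : ∀ x x' y y', r x x' → r y y' → (x ≤ y ↔ x' ≤ y')
  s : ∀ x x', r x x' → r (M.s x) (M'.s x')
  t : ∀ x x', r x x' → r (M.t x) (M'.t x')
  s' : ∀ x x', r x x' → r (M.s.symm x) (M'.s.symm x')
  t' : ∀ x x', r x x' → r (M.t.symm x) (M'.t.symm x')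

/-- The disjoint union. -/
def Am (_r : M.X → M'.X → Prop) : Type := M.X ⊕ M'.X

/-- The amalgamated preorder. -/
def amLe : M.X ⊕ M'.X → M.X ⊕ M'.X → Prop
  | .inl b, .inl b' => b ≤ b'
  | .inr c, .inr c' => c ≤ c'
  | .inr c, .inl b => ∃ x x', r x x' ∧ c ≤ x' ∧ x ≤ b
  | .inl b, .inr c => ∀ x x', r x x' → ¬ (c ≤ x' ∧ x < b) ∧ ¬ (c < x' ∧ x ≤ b)

variable {r}

theorem amLe_trans (h : PIso r) (a b c : M.X ⊕ M'.X) (h1 : amLe r a b) (h2 : amLe r b c) :
    amLe r a c := by
  rcases a with a | a <;> rcases b with b | b <;> rcases c with c | c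
  · exact le_trans h1 h2
  · intro x x' hx
    have h3 := h2 x x' hx
    exact ⟨fun g => h3.1 ⟨g.1, g.2.trans_le h1⟩, fun g => h3.2 ⟨g.1, g.2.trans h1⟩⟩
  · obtain ⟨x, x', hx, h3, h4⟩ := h2
    have h5 := (h1 x x' hx).1
    have h6 : ¬ x < a := fun g => h5 ⟨h3, g⟩
    exact (not_lt.1 h6).trans h4
  · intro x x' hx
    have h3 := h1 x x' hx
    exact ⟨fun g => h3.1 ⟨(show b ≤ c from h2).trans g.1, g.2⟩,
      fun g => h3.2 ⟨(show b ≤ c from h2).trans_lt g.1, g.2⟩⟩
  · obtain ⟨x, x', hx, h3, h4⟩ := h1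
    exact ⟨x, x', hx, h3, h4.trans h2⟩
  · obtain ⟨x, x', hx, h3, h4⟩ := h1
    have h5 := (h2 x x' hx).2
    have h6 : ¬ c < x' := fun g => h5 ⟨g, h4⟩
    exact h3.trans (not_lt.1 h6)
  · obtain ⟨x, x', hx, h3, h4⟩ := h2
    exact ⟨x, x', hx, (show a ≤ b from h1).trans h3, h4⟩
  · exact le_trans h1 h2

theorem amLe_total (h : PIso r) (a b : M.X ⊕ M'.X) : amLe r a b ∨ amLe r b a := by
  rcases a with a | a <;> rcases b with b | b
  · exact le_total a b
  · by_cases h1 : amLe r (.inl a) (.inr b)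
    · exact Or.inl h1
    · right
      simp only [amLe, not_forall] at h1
      obtain ⟨x, x', hx, h2⟩ := h1
      by_cases h3 : b ≤ x' ∧ x < a
      · exact ⟨x, x', hx, h3.1, h3.2.le⟩
      · have h4 : b < x' ∧ x ≤ a := by
          by_contra h5
          exact h2 ⟨h3, h5⟩
        exact ⟨x, x', hx, h4.1.le, h4.2⟩
  · by_cases h1 : amLe r (.inl b) (.inr a)
    · exact Or.inr h1
    · left
      simp only [amLe, not_forall] at h1
      obtain ⟨x, x', hx, h2⟩ := h1
      by_cases h3 : a ≤ x' ∧ x < b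
      · exact ⟨x, x', hx, h3.1, h3.2.le⟩
      · have h4 : a < x' ∧ x ≤ b := by
          by_contra h5
          exact h2 ⟨h3, h5⟩
        exact ⟨x, x', hx, h4.1.le, h4.2⟩
  · exact le_total a b

theorem amLe_map {e : M.X ≃o M.X} {e' : M'.X ≃o M'.X}
    (hr : ∀ x x', r x x' → r (e x) (e' x'))
    (hr' : ∀ x x', r x x' → r (e.symm x) (e'.symm x')) (a b : M.X ⊕ M'.X)
    (hab : amLe r a b) : amLe r (Sum.map e e' a) (Sum.map e e' b) := by
  rcases a with a | a <;> rcases b with b | b
  · exact e.monotone hab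
  · intro x x' hx
    have h3 := hab _ _ (hr' x x' hx)
    constructor
    · rintro ⟨g1, g2⟩
      refine h3.1 ⟨?_, ?_⟩
      · rw [OrderIso.le_symm_apply]; exact g1
      · rw [OrderIso.symm_apply_lt]; exact g2
    · rintro ⟨g1, g2⟩
      refine h3.2 ⟨?_, ?_⟩
      · rw [OrderIso.lt_symm_apply]; exact g1
      · rw [OrderIso.symm_apply_le]; exact g2
  · obtain ⟨x, x', hx, h3, h4⟩ := hab
    exact ⟨_, _, hr x x' hx, e'.monotone h3, e.monotone h4⟩
  · exact e'.monotone hab

/-- The automorphism of the disjoint union. -/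
def amIso [Preorder (Am r)] (hle : ∀ a b : Am r, a ≤ b ↔ amLe r a b) (e : M.X ≃o M.X)
    (e' : M'.X ≃o M'.X) (hr : ∀ x x', r x x' → r (e x) (e' x'))
    (hr' : ∀ x x', r x x' → r (e.symm x) (e'.symm x')) : Am r ≃o Am r where
  toFun := Sum.map e e'
  invFun := Sum.map e.symm e'.symm
  left_inv := by rintro (a | a) <;> simp <;> rfl
  right_inv := by rintro (a | a) <;> simp <;> rfl
  map_rel_iff' := by
    intro (a : M.X ⊕ M'.X) (b : M.X ⊕ M'.X)
    refine (hle _ _).trans (Iff.trans ?_ (hle _ _).symm)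
    constructor
    · intro h
      have key : ∀ a : M.X ⊕ M'.X, Sum.map e.symm e'.symm (Sum.map e e' a) = a := by
        rintro (a | a) <;> simp
      have h1 : amLe r (Sum.map e.symm e'.symm (Sum.map e e' a))
          (Sum.map e.symm e'.symm (Sum.map e e' b)) :=
        amLe_map (e := e.symm) (e' := e'.symm) hr' (by simpa using hr) _ _ h
      rwa [key, key] at h1
    · exact amLe_map hr hr' a b

/-- The amalgam. -/
def amPre (h : PIso r) : PreMod :=
  letI pre : Preorder (Am r) :=
    { le := amLe r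
      le_refl := by rintro (a | a) <;> exact le_refl _
      le_trans := amLe_trans h }
  { P := Am r
    pre := pre
    ne := ⟨Sum.inl (Classical.arbitrary M.X)⟩
    total := amLe_total h
    s := amIso (fun _ _ => Iff.rfl) M.s M'.s h.s h.s'
    t := amIso (fun _ _ => Iff.rfl) M.t M'.t h.t h.t'
    h1 := by
      rintro (a | a)
      · exact M.h1 a
      · exact M'.h1 a
    h2 := by
      rintro (a | a)
      · exact M.h2 a
      · exact M'.h2 a }

/-- The first inclusion. -/
def iA (h : PIso r) (x : M.X) : (amPre h).P := (Sum.inl x : M.X ⊕ M'.X)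

/-- The second inclusion. -/
def iB (h : PIso r) (x : M'.X) : (amPre h).P := (Sum.inr x : M.X ⊕ M'.X)

theorem am_s_inl (h : PIso r) (m : ℕ) (x : M.X) :
    ((amPre h).s)^[m] (iA h x) = iA h (M.s^[m] x) := by
  induction m generalizing x with
  | zero => rfl
  | succ m ih => rw [Function.iterate_succ_apply, Function.iterate_succ_apply, ← ih]; rfl

theorem am_t_inl (h : PIso r) (m : ℕ) (x : M.X) :
    ((amPre h).t)^[m] (iA h x) = iA h (M.t^[m] x) := by
  induction m generalizing x with
  | zero => rfl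
  | succ m ih => rw [Function.iterate_succ_apply, Function.iterate_succ_apply, ← ih]; rfl

theorem am_s_inr (h : PIso r) (m : ℕ) (x : M'.X) :
    ((amPre h).s)^[m] (iB h x) = iB h (M'.s^[m] x) := by
  induction m generalizing x with
  | zero => rfl
  | succ m ih => rw [Function.iterate_succ_apply, Function.iterate_succ_apply, ← ih]; rfl

theorem am_t_inr (h : PIso r) (m : ℕ) (x : M'.X) :
    ((amPre h).t)^[m] (iB h x) = iB h (M'.t^[m] x) := by
  induction m generalizing x with
  | zero => rfl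
  | succ m ih => rw [Function.iterate_succ_apply, Function.iterate_succ_apply, ← ih]; rfl

theorem am_good (h : PIso r) {θ : ℝ} (hM : Good θ M) (hM' : Good θ M') :
    Good θ (amPre h).toMod := by
  apply PreMod.good
  intro m n
  have cases : ∀ x : (amPre h).P, (∃ y, x = iA h y) ∨ ∃ y, x = iB h y := by
    rintro (x | x)
    · exact Or.inl ⟨x, rfl⟩
    · exact Or.inr ⟨x, rfl⟩
  constructor
  · intro hmn x
    rcases cases x with ⟨x, rfl⟩ | ⟨x, rfl⟩
    · rw [am_s_inl, am_t_inl]
      exact (hM m n).1 hmn x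
    · rw [am_s_inr, am_t_inr]
      exact (hM' m n).1 hmn x
  · intro hmn x
    rcases cases x with ⟨x, rfl⟩ | ⟨x, rfl⟩
    · rw [am_s_inl, am_t_inl]
      exact (hM m n).2 hmn x
    · rw [am_s_inr, am_t_inr]
      exact (hM' m n).2 hmn x

/-- The first embedding. -/
noncomputable def amL (h : PIso r) (x : M.X) : (amPre h).toMod.X := (amPre h).cl (iA h x)

/-- The second embedding. -/
noncomputable def amR (h : PIso r) (x : M'.X) : (amPre h).toMod.X := (amPre h).cl (iB h x)

theorem amL_emb (h : PIso r) : IsEmb (amL h) where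
  le x x' := ((amPre h).cl_le (a := iA h x) (b := iA h x')).symm
  s _ := rfl
  t _ := rfl

theorem amR_emb (h : PIso r) : IsEmb (amR h) where
  le x x' := ((amPre h).cl_le (a := iB h x) (b := iB h x')).symm
  s _ := rfl
  t _ := rfl

theorem amL_eq (h : PIso r) {x : M.X} {x' : M'.X} (hx : r x x') : amL h x = amR h x' := by
  refine ((amPre h).cl_eq (a := iA h x) (b := iB h x')).2 ⟨?_, ?_⟩
  · intro y y' hy
    constructor
    · rintro ⟨g1, g2⟩
      exact absurd ((h.le x x' y y' hx hy).2 g1) (not_le_of_gt g2)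
    · rintro ⟨g1, g2⟩
      exact absurd ((h.le y y' x x' hy hx).1 g2) (not_le_of_gt g1)
  · exact ⟨x, x', hx, le_rfl, le_rfl⟩

end am

end Pool.Agent.X228.MTL
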