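import Mathlib

/-!
# FLew-algebras, MTL-algebras, axiomatic extensions and deductive interpolation
-/

set_option autoImplicit false

universe u

namespace Pool.Agent.X228.MTL

/-- `FL_ew`-algebras: bounded integral commutative residuated lattices.  The unit `1` of the monoid
is the top element, `zero` is the bottom element and `imp` is the residual. -/
class FLew (A : Type u) extends Lattice A, CommMonoid A where
  /-- the residual -/
  imp : A → A → A
  /-- the bottom element -/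
  zero : A
  zero_le' : ∀ a : A, zero ≤ a
  le_one' : ∀ a : A, a ≤ 1
  adj : ∀ a b c : A, a * b ≤ c ↔ a ≤ imp b c

/-- Prelinearity; MTL-algebras are the prelinear `FL_ew`-algebras. -/
def Prelinear (A : Type u) [FLew A] : Prop := ∀ a b : A, FLew.imp a b ⊔ FLew.imp b a = 1

/-- Formulas over the variables `0, 1, 2, ...` in the language `∧, ∨, ·, →, 0, 1`. -/
inductive Fm : Type where
  | var (n : ℕ) : Fm
  | zero : Fm
  | one : Fm
  | and (φ ψ : Fm) : Fm
  | or (φ ψ : Fm) : Fm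
  | mul (φ ψ : Fm) : Fm
  | imp (φ ψ : Fm) : Fm

/-- The variables occurring in a formula. -/
def Fm.vars : Fm → Set ℕ
  | .var n => {n}
  | .zero => ∅
  | .one => ∅
  | .and φ ψ => φ.vars ∪ ψ.vars
  | .or φ ψ => φ.vars ∪ ψ.vars
  | .mul φ ψ => φ.vars ∪ ψ.vars
  | .imp φ ψ => φ.vars ∪ ψ.vars

/-- Substitution. -/
def Fm.subst (σ : ℕ → Fm) : Fm → Fm
  | .var n => σ n
  | .zero => .zero
  | .one => .one
  | .and φ ψ => .and (φ.subst σ) (ψ.subst σ)
  | .or φ ψ => .or (φ.subst σ) (ψ.subst σ)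
  | .mul φ ψ => .mul (φ.subst σ) (ψ.subst σ)
  | .imp φ ψ => .imp (φ.subst σ) (ψ.subst σ)

/-- The value of a formula under a valuation. -/
def ev {A : Type u} [FLew A] (v : ℕ → A) : Fm → A
  | .var n => v n
  | .zero => FLew.zero
  | .one => 1
  | .and φ ψ => ev v φ ⊓ ev v ψ
  | .or φ ψ => ev v φ ⊔ ev v ψ
  | .mul φ ψ => ev v φ * ev v ψ
  | .imp φ ψ => FLew.imp (ev v φ) (ev v ψ)

/-- The consequence relation of `FL_ew`: truth-preservation in all `FL_ew`-algebras. -/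
def FLewConseq (Γ : Set Fm) (φ : Fm) : Prop :=
  ∀ (A : Type) [FLew A] (v : ℕ → A), (∀ γ ∈ Γ, ev v γ = 1) → ev v φ = 1

/-- The consequence relation of `MTL`: truth-preservation in all MTL-algebras. -/
def MTLConseq (Γ : Set Fm) (φ : Fm) : Prop :=
  ∀ (A : Type) [FLew A], Prelinear A → ∀ v : ℕ → A, (∀ γ ∈ Γ, ev v γ = 1) → ev v φ = 1

/-- A set of formulas closed under substitution. -/
def SubstClosed (Ax : Set Fm) : Prop := ∀ φ ∈ Ax, ∀ σ : ℕ → Fm, φ.subst σ ∈ Ax

/-- `L` is the axiomatic extension of the consequence relation `C` by some substitution-closed set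
`Ax` of axioms: `Γ ⊢_L φ` iff `Γ ∪ Ax ⊢_C φ`. -/
def IsAxExt (C L : Set Fm → Fm → Prop) : Prop :=
  ∃ Ax : Set Fm, SubstClosed Ax ∧ ∀ Γ φ, L Γ φ ↔ C (Γ ∪ Ax) φ

/-- The deductive interpolation property of a consequence relation. -/
def DIP (L : Set Fm → Fm → Prop) : Prop :=
  ∀ (Γ : Set Fm) (φ : Fm), L Γ φ →
    ∃ Δ : Set Fm, (∀ δ ∈ Δ, δ.vars ⊆ (⋃ γ ∈ Γ, γ.vars) ∩ φ.vars) ∧ (∀ δ ∈ Δ, L Γ δ) ∧ L Δ φ

/-! ## Basic facts -/

section basic
variable {A : Type u} [FLew A]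

theorem zero_le_ (a : A) : (FLew.zero : A) ≤ a := FLew.zero_le' a
theorem le_one_ (a : A) : a ≤ 1 := FLew.le_one' a

theorem imp_eq_one {a b : A} : FLew.imp a b = 1 ↔ a ≤ b := by
  constructor
  · intro h
    have h1 : (1 : A) ≤ FLew.imp a b := h.ge
    have h2 := (FLew.adj 1 a b).2 h1
    rwa [one_mul] at h2
  · intro h
    refine le_antisymm (le_one_ _) ((FLew.adj 1 a b).1 ?_)
    rwa [one_mul]

theorem mul_imp_le (a b : A) : FLew.imp a b * a ≤ b := (FLew.adj _ _ _).2 le_rfl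

theorem mul_mono {a b c d : A} (h1 : a ≤ b) (h2 : c ≤ d) : a * c ≤ b * d := by
  have h3 : a * c ≤ b * c := (FLew.adj _ _ _).2 (h1.trans ((FLew.adj _ _ _).1 le_rfl))
  have h4 : c * b ≤ d * b := (FLew.adj _ _ _).2 (h2.trans ((FLew.adj _ _ _).1 le_rfl))
  rw [mul_comm c b, mul_comm d b] at h4
  exact h3.trans h4

theorem mul_sup (a b c : A) : a * (b ⊔ c) ≤ (a * b) ⊔ (a * c) := by
  rw [mul_comm, FLew.adj]
  refine sup_le ?_ ?_
  · rw [← FLew.adj, mul_comm]; exact le_sup_left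
  · rw [← FLew.adj, mul_comm]; exact le_sup_right

theorem one_imp (a : A) : FLew.imp 1 a = a := by
  apply le_antisymm
  · have := mul_imp_le 1 a
    rwa [mul_one] at this
  · rw [← FLew.adj, mul_one]

theorem imp_trans_le (a b c : A) : FLew.imp a b * FLew.imp b c ≤ FLew.imp a c := by
  rw [← FLew.adj]
  calc FLew.imp a b * FLew.imp b c * a = FLew.imp b c * (FLew.imp a b * a) := by
        rw [mul_comm (FLew.imp a b), mul_assoc]
    _ ≤ FLew.imp b c * b := mul_mono le_rfl (mul_imp_le a b)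
    _ ≤ c := mul_imp_le b c

theorem ev_subst (v : ℕ → A) (σ : ℕ → Fm) (φ : Fm) :
    ev v (φ.subst σ) = ev (fun n => ev v (σ n)) φ := by
  induction φ with
  | var n => rfl
  | zero => rfl
  | one => rfl
  | and φ ψ ih1 ih2 => simp only [Fm.subst, ev, ih1, ih2]
  | or φ ψ ih1 ih2 => simp only [Fm.subst, ev, ih1, ih2]
  | mul φ ψ ih1 ih2 => simp only [Fm.subst, ev, ih1, ih2]
  | imp φ ψ ih1 ih2 => simp only [Fm.subst, ev, ih1, ih2]

theorem ev_congr {v w : ℕ → A} (φ : Fm) (h : ∀ n ∈ φ.vars, v n = w n) : ev v φ = ev w φ := by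
  induction φ with
  | var n => exact h n rfl
  | zero => rfl
  | one => rfl
  | and φ ψ ih1 ih2 =>
    simp only [ev, ih1 fun n hn => h n (Or.inl hn), ih2 fun n hn => h n (Or.inr hn)]
  | or φ ψ ih1 ih2 =>
    simp only [ev, ih1 fun n hn => h n (Or.inl hn), ih2 fun n hn => h n (Or.inr hn)]
  | mul φ ψ ih1 ih2 =>
    simp only [ev, ih1 fun n hn => h n (Or.inl hn), ih2 fun n hn => h n (Or.inr hn)]
  | imp φ ψ ih1 ih2 =>
    simp only [ev, ih1 fun n hn => h n (Or.inl hn), ih2 fun n hn => h n (Or.inr hn)]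

end basic

/-! ## Finite conjunctions, fourth powers -/

/-- The conjunction of a list of formulas. -/
def conj : List Fm → Fm
  | [] => .one
  | φ :: l => .and φ (conj l)

/-- The fourth power. -/
def pow4 (φ : Fm) : Fm := .mul (.mul φ φ) (.mul φ φ)

/-- Negation. -/
def neg (φ : Fm) : Fm := .imp φ .zero

/-- Equivalence. -/
def eqv (φ ψ : Fm) : Fm := .and (.imp φ ψ) (.imp ψ φ)

section
variable {A : Type u} [FLew A]

theorem ev_conj (v : ℕ → A) (l : List Fm) : ev v (conj l) = 1 ↔ ∀ φ ∈ l, ev v φ = 1 := by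
  induction l with
  | nil => simp [conj, ev]
  | cons φ l ih =>
    simp only [conj, ev, List.mem_cons, forall_eq_or_imp, ← ih]
    constructor
    · intro h
      refine ⟨le_antisymm (le_one_ _) ?_, le_antisymm (le_one_ _) ?_⟩
      · rw [← h]; exact inf_le_left
      · rw [← h]; exact inf_le_right
    · rintro ⟨h1, h2⟩
      rw [h1, h2, inf_idem]

theorem ev_pow4 (v : ℕ → A) (φ : Fm) : ev v (pow4 φ) = ev v φ ^ 4 := by
  simp only [pow4, ev]
  rw [← pow_two, ← pow_two, ← pow_mul]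

theorem ev_neg (v : ℕ → A) (φ : Fm) : ev v (neg φ) = FLew.imp (ev v φ) FLew.zero := rfl

theorem ev_eqv (v : ℕ → A) (φ ψ : Fm) : ev v (eqv φ ψ) = 1 ↔ ev v φ = ev v ψ := by
  simp only [eqv, ev]
  constructor
  · intro h
    have h1 : FLew.imp (ev v φ) (ev v ψ) = 1 := le_antisymm (le_one_ _) (by
      rw [← h]; exact inf_le_left)
    have h2 : FLew.imp (ev v ψ) (ev v φ) = 1 := le_antisymm (le_one_ _) (by
      rw [← h]; exact inf_le_right)
    exact le_antisymm (imp_eq_one.1 h1) (imp_eq_one.1 h2)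
  · intro h
    rw [h, imp_eq_one.2 le_rfl, inf_idem]

theorem vars_conj (l : List Fm) (n : ℕ) : n ∈ (conj l).vars ↔ ∃ φ ∈ l, n ∈ φ.vars := by
  induction l with
  | nil => simp [conj, Fm.vars]
  | cons φ l ih => simp [conj, Fm.vars, ih]

theorem vars_pow4 (φ : Fm) : (pow4 φ).vars = φ.vars := by
  simp [pow4, Fm.vars]

theorem vars_neg (φ : Fm) : (neg φ).vars = φ.vars := by
  simp [neg, Fm.vars]

end

/-! ## The logic of a class of simple algebras -/

section logic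
variable {ι : Type*} (Al : ι → Type) [∀ i, FLew (Al i)]

/-- The formulas valid in the class. -/
def AxOf : Set Fm := {φ | ∀ i (v : ℕ → Al i), ev v φ = 1}

theorem AxOf_subst : SubstClosed (AxOf Al) := by
  intro φ hφ σ i v
  rw [ev_subst]
  exact hφ i _

/-- Consequence over the class. -/
def KConseq (Γ : Set Fm) (φ : Fm) : Prop :=
  ∀ i (v : ℕ → Al i), (∀ γ ∈ Γ, ev v γ = 1) → ev v φ = 1

/-- Compactness of the class. -/
def Compact : Prop := ∀ S : Set Fm,
  (∀ l : List Fm, (∀ φ ∈ l, φ ∈ S) → ∃ i, ∃ v : ℕ → Al i, ∀ φ ∈ l, ev v φ = 1) →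
    ∃ i, ∃ v : ℕ → Al i, ∀ φ ∈ S, ev v φ = 1

/-- Amalgamation of valuations. -/
def Amalg : Prop := ∀ (V : Set ℕ) (i j : ι) (v : ℕ → Al i) (w : ℕ → Al j),
  (∀ α : Fm, α.vars ⊆ V → (ev v α = 1 ↔ ev w α = 1)) →
    ∃ k, ∃ (v' w' : ℕ → Al k), (∀ α, ev v' α = 1 ↔ ev v α = 1) ∧
      (∀ α, ev w' α = 1 ↔ ev w α = 1) ∧ ∀ n ∈ V, v' n = w' n

variable {Al}

theorem conseq_finite (hs : ∀ i (x : Al i), x = 1 ∨ x ^ 4 = FLew.zero)
    (hnt : ∀ i, (FLew.zero : Al i) ≠ 1) (hc : Compact Al) {Γ : Set Fm} {φ : Fm}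
    (h : KConseq Al Γ φ) : ∃ l : List Fm, (∀ γ ∈ l, γ ∈ Γ) ∧ .imp (pow4 (conj l)) φ ∈ AxOf Al := by
  by_contra hcon
  push Not at hcon
  -- the set `Γ ∪ {¬ φ⁴}` is satisfiable
  have h1 : ∃ i, ∃ v : ℕ → Al i, ∀ ψ ∈ Γ ∪ {neg (pow4 φ)}, ev v ψ = 1 := by
    apply hc
    intro l hl
    classical
    have h2 := hcon (l.filter fun ψ => ψ ∈ Γ) (by
      intro γ hγ
      simpa using (List.mem_filter.1 hγ).2)
    have h2' : ∃ i, ∃ v : ℕ → Al i, ev v (.imp (pow4 (conj (l.filter fun ψ => ψ ∈ Γ))) φ) ≠ 1 := by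
      by_contra h3
      push Not at h3
      exact h2 h3
    obtain ⟨i, v, hv⟩ := h2'
    refine ⟨i, v, ?_⟩
    have hφ : ev v φ ≠ 1 := by
      intro h3
      apply hv
      simp only [ev]
      rw [h3, imp_eq_one]
      exact le_one_ _
    have hconj : ev v (conj (l.filter fun ψ => ψ ∈ Γ)) = 1 := by
      rcases hs i (ev v (conj (l.filter fun ψ => ψ ∈ Γ))) with h3 | h3
      · exact h3
      · exfalso
        apply hv
        simp only [ev]
        rw [ev_pow4, h3, imp_eq_one]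
        exact zero_le_ _
    intro ψ hψ
    rcases hl ψ hψ with h3 | h3
    · rw [ev_conj] at hconj
      exact hconj ψ (List.mem_filter.2 ⟨hψ, by simpa using h3⟩)
    · rw [h3, ev_neg, ev_pow4, imp_eq_one]
      rcases hs i (ev v φ) with h4 | h4
      · exact absurd h4 hφ
      · rw [h4]
  obtain ⟨i, v, hv⟩ := h1
  have h2 := h i v fun γ hγ => hv γ (Or.inl hγ)
  have h3 := hv (neg (pow4 φ)) (Or.inr rfl)
  rw [ev_neg, ev_pow4, h2, one_pow, one_imp] at h3
  exact hnt i h3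

/-- The main criterion. -/
theorem dip_of {C : Set Fm → Fm → Prop}
    (hC1 : ∀ Γ φ, C Γ φ → ∀ i (v : ℕ → Al i), (∀ γ ∈ Γ, ev v γ = 1) → ev v φ = 1)
    (hC2 : ∀ Γ φ, (∀ (A : Type) [FLew A] (v : ℕ → A), (∀ γ ∈ Γ, ev v γ = 1) → ev v φ = 1) → C Γ φ)
    (hs : ∀ i (x : Al i), x = 1 ∨ x ^ 4 = FLew.zero)
    (hnt : ∀ i, (FLew.zero : Al i) ≠ 1) (hc : Compact Al) (ha : Amalg Al) :
    (∀ Γ φ, C (Γ ∪ AxOf Al) φ ↔ KConseq Al Γ φ) ∧ DIP (fun Γ φ => C (Γ ∪ AxOf Al) φ) := by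
  classical
  have key : ∀ Γ φ, C (Γ ∪ AxOf Al) φ ↔ KConseq Al Γ φ := by
    intro Γ φ
    constructor
    · intro h i v hv
      refine hC1 _ _ h i v ?_
      rintro γ (hγ | hγ)
      · exact hv γ hγ
      · exact hγ i v
    · intro h
      obtain ⟨l, hl, hl'⟩ := conseq_finite hs hnt hc h
      apply hC2
      intro A _ v hv
      have h1 : ev v (conj l) = 1 := (ev_conj v l).2 fun γ hγ => hv γ (Or.inl (hl γ hγ))
      have h2 := hv _ (Or.inr hl')
      simp only [ev] at h2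
      rwa [ev_pow4, h1, one_pow, one_imp] at h2
  refine ⟨key, ?_⟩
  intro Γ φ h
  rw [key] at h
  let V : Set ℕ := (⋃ γ ∈ Γ, γ.vars) ∩ φ.vars
  refine ⟨{δ | δ.vars ⊆ V ∧ KConseq Al Γ δ}, fun δ hδ => hδ.1, fun δ hδ => (key _ _).2 hδ.2, ?_⟩
  refine (key _ _).2 ?_
  intro j w hw
  by_contra hφ
  -- a model of `Γ` with the same type over `V`
  obtain ⟨i, v, hv⟩ : ∃ i, ∃ v : ℕ → Al i, ∀ ψ ∈ Γ ∪ {α | α.vars ⊆ V ∧ ev w α = 1} , ev v ψ = 1 := by
    apply hc
    intro l hl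
    let l1 := l.filter fun ψ => ¬ (ψ ∈ Γ)
    have hl1 : ∀ α ∈ l1, α.vars ⊆ V ∧ ev w α = 1 := by
      intro α hα
      have h1 := List.mem_filter.1 hα
      rcases hl α h1.1 with h2 | h2
      · have h3 := h1.2
        simp only [decide_eq_true_eq] at h3
        exact absurd h2 h3
      · exact h2
    have h2 : ¬ KConseq Al Γ (neg (pow4 (conj l1))) := by
      intro h3
      have h4 := hw (neg (pow4 (conj l1))) ⟨by
        rw [vars_neg, vars_pow4]
        intro n hn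
        rw [vars_conj] at hn
        obtain ⟨α, hα, hn⟩ := hn
        exact (hl1 α hα).1 hn, h3⟩
      rw [ev_neg, ev_pow4, (ev_conj w l1).2 fun α hα => (hl1 α hα).2, one_pow, one_imp] at h4
      exact hnt j h4
    unfold KConseq at h2
    push Not at h2
    obtain ⟨i, v, hv1, hv2⟩ := h2
    refine ⟨i, v, fun ψ hψ => ?_⟩
    by_cases h3 : ψ ∈ Γ
    · exact hv1 ψ h3
    · have h4 : ev v (conj l1) = 1 := by
        rcases hs i (ev v (conj l1)) with h5 | h5
        · exact h5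
        · exfalso
          apply hv2
          rw [ev_neg, ev_pow4, h5, imp_eq_one]
      rw [ev_conj] at h4
      exact h4 ψ (List.mem_filter.2 ⟨hψ, by simpa using h3⟩)
  have htype : ∀ α : Fm, α.vars ⊆ V → (ev v α = 1 ↔ ev w α = 1) := by
    intro α hα
    constructor
    · intro h1
      rcases hs j (ev w α) with h2 | h2
      · exact h2
      · exfalso
        have h3 := hv (neg (pow4 α)) (Or.inr ⟨by rw [vars_neg, vars_pow4]; exact hα, by
          rw [ev_neg, ev_pow4, h2, imp_eq_one]⟩)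
        rw [ev_neg, ev_pow4, h1, one_pow, one_imp] at h3
        exact hnt i h3
    · intro h1
      exact hv α (Or.inr ⟨hα, h1⟩)
  obtain ⟨k, v', w', h1, h2, h3⟩ := ha V i j v w htype
  -- the joint valuation
  let x : ℕ → Al k := fun n => if n ∈ φ.vars then w' n else v' n
  have hx1 : ev x φ = ev w' φ := ev_congr φ fun n hn => by simp [x, hn]
  have hx2 : ∀ γ ∈ Γ, ev x γ = ev v' γ := by
    intro γ hγ
    refine ev_congr γ fun n hn => ?_
    by_cases hnφ : n ∈ φ.vars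
    · simp only [x, hnφ, if_true]
      exact (h3 n ⟨Set.mem_biUnion hγ hn, hnφ⟩).symm
    · simp [x, hnφ]
  have h4 := h k x fun γ hγ => by
    rw [hx2 γ hγ, h1]
    exact hv γ (Or.inl hγ)
  rw [hx1, h2] at h4
  exact hφ h4

end logic

end Pool.Agent.X228.MTL
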