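import Pool.Agent.X228.MTL.Theta

/-!
# Compactness of the classes `K_θ` by ultraproducts
-/

set_option autoImplicit false

namespace Pool.Agent.X228.MTL

open Alg

section uprod
variable {I : Type} (U : Ultrafilter I) (M : I → Mod)

/-- The product, with the preorder given by the ultrafilter. -/
def UProd (_U : Ultrafilter I) (M : I → Mod) : Type := ∀ i, (M i).X

instance : Preorder (UProd U M) where
  le x y := ∀ᶠ i in (U : Filter I), x i ≤ y i
  le_refl x := Filter.Eventually.of_forall fun i => le_refl (x i)
  le_trans x y z h1 h2 := by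
    filter_upwards [h1, h2] with i a b
    exact a.trans b

theorem uprod_le (x y : UProd U M) : x ≤ y ↔ ∀ᶠ i in (U : Filter I), x i ≤ y i := Iff.rfl

instance : Nonempty (UProd U M) := ⟨fun _ => Classical.arbitrary _⟩

/-- The first automorphism. -/
def uS : UProd U M ≃o UProd U M where
  toFun x := fun i => (M i).s (x i)
  invFun x := fun i => (M i).s.symm (x i)
  left_inv x := funext fun i => (M i).s.symm_apply_apply _
  right_inv x := funext fun i => (M i).s.apply_symm_apply _
  map_rel_iff' := by
    intro x y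
    refine Filter.eventually_congr (Filter.Eventually.of_forall fun i => ?_)
    exact (M i).s.le_iff_le

/-- The second automorphism. -/
def uT : UProd U M ≃o UProd U M where
  toFun x := fun i => (M i).t (x i)
  invFun x := fun i => (M i).t.symm (x i)
  left_inv x := funext fun i => (M i).t.symm_apply_apply _
  right_inv x := funext fun i => (M i).t.apply_symm_apply _
  map_rel_iff' := by
    intro x y
    refine Filter.eventually_congr (Filter.Eventually.of_forall fun i => ?_)
    exact (M i).t.le_iff_le

/-- The ultraproduct before taking the quotient. -/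
def uPre : PreMod where
  P := UProd U M
  total x y := by
    rw [uprod_le, uprod_le, ← Ultrafilter.eventually_or]
    exact Filter.Eventually.of_forall fun i => le_total _ _
  s := uS U M
  t := uT U M
  h1 x := Filter.Eventually.of_forall fun i => (M i).h1 (x i)
  h2 x := Filter.Eventually.of_forall fun i => (M i).h2 (x i)

/-- The ultraproduct. -/
noncomputable def uMod : Mod := (uPre U M).toMod

/-- Representatives. -/
noncomputable def rep (x : (uMod U M).X) : UProd U M := ((uPre U M).cl_surj x).choose

theorem cl_rep (x : (uMod U M).X) : (uPre U M).cl (rep U M x) = x :=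
  ((uPre U M).cl_surj x).choose_spec

/-- Projections. -/
noncomputable def pull (i : I) (x : (uMod U M).X) : (M i).X := rep U M x i

theorem ev_eq {a b : UProd U M} (h : (uPre U M).cl a = (uPre U M).cl b) :
    ∀ᶠ i in (U : Filter I), a i = b i := by
  have h1 := (uPre U M).cl_eq.1 h
  have h2 : ∀ᶠ i in (U : Filter I), a i ≤ b i := h1.1
  have h3 : ∀ᶠ i in (U : Filter I), b i ≤ a i := h1.2
  filter_upwards [h2, h3] with i h4 h5
  exact le_antisymm h4 h5

theorem pull_cl (a : UProd U M) :
    ∀ᶠ i in (U : Filter I), pull U M i ((uPre U M).cl a) = a i :=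
  ev_eq U M (cl_rep U M _)

theorem ev_pp (x : (uMod U M).X) : ∀ᶠ i in (U : Filter I), PP (M' := M i) (pull U M i) x := by
  have h1 : ∀ᶠ i in (U : Filter I),
      pull U M i ((uMod U M).s x) = (M i).s (pull U M i x) := by
    have := pull_cl U M (uS U M (rep U M x))
    have h : (uPre U M).cl (uS U M (rep U M x)) = (uMod U M).s x := by
      conv_rhs => rw [← cl_rep U M x]
      rfl
    rwa [h] at this
  have h2 : ∀ᶠ i in (U : Filter I),
      pull U M i ((uMod U M).s.symm x) = (M i).s.symm (pull U M i x) := by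
    have := pull_cl U M ((uS U M).symm (rep U M x))
    have h : (uPre U M).cl ((uS U M).symm (rep U M x)) = (uMod U M).s.symm x := by
      conv_rhs => rw [← cl_rep U M x]
      rfl
    rwa [h] at this
  have h3 : ∀ᶠ i in (U : Filter I),
      pull U M i ((uMod U M).t x) = (M i).t (pull U M i x) := by
    have := pull_cl U M (uT U M (rep U M x))
    have h : (uPre U M).cl (uT U M (rep U M x)) = (uMod U M).t x := by
      conv_rhs => rw [← cl_rep U M x]
      rfl
    rwa [h] at this
  have h4 : ∀ᶠ i in (U : Filter I),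
      pull U M i ((uMod U M).t.symm x) = (M i).t.symm (pull U M i x) := by
    have := pull_cl U M ((uT U M).symm (rep U M x))
    have h : (uPre U M).cl ((uT U M).symm (rep U M x)) = (uMod U M).t.symm x := by
      conv_rhs => rw [← cl_rep U M x]
      rfl
    rwa [h] at this
  filter_upwards [h1, h2, h3, h4] with i a b c d
  exact ⟨a, b, c, d⟩

theorem ev_le (x x' : (uMod U M).X) :
    ∀ᶠ i in (U : Filter I), (x ≤ x' ↔ pull U M i x ≤ pull U M i x') := by
  have h : x ≤ x' ↔ ∀ᶠ i in (U : Filter I), pull U M i x ≤ pull U M i x' := by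
    conv_lhs => rw [← cl_rep U M x, ← cl_rep U M x']
    exact (uPre U M).cl_le
  by_cases h1 : x ≤ x'
  · filter_upwards [h.1 h1] with i a
    exact ⟨fun _ => a, fun _ => h1⟩
  · have h2 : ∀ᶠ i in (U : Filter I), ¬ (pull U M i x ≤ pull U M i x') := by
      rw [Ultrafilter.eventually_not]
      exact fun h3 => h1 (h.2 h3)
    filter_upwards [h2] with i a
    exact ⟨fun h3 => absurd h3 h1, fun h3 => absurd h3 a⟩

theorem ev_qq (x x' : (uMod U M).X) :
    ∀ᶠ i in (U : Filter I), QQ (M' := M i) (pull U M i) x x' := by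
  filter_upwards [ev_le U M x x', ev_le U M x ((uMod U M).s x'), ev_le U M x ((uMod U M).t x'),
    ev_pp U M x'] with i a b c d
  refine ⟨a, ?_, ?_⟩
  · rw [← d.1]; exact b
  · rw [← d.2.2.1]; exact c

theorem ev_pp' (a : (uMod U M).Al) :
    ∀ᶠ i in (U : Filter I), ∀ x, pt a = some x → PP (M' := M i) (pull U M i) x := by
  rcases h : pt a with _ | x
  · exact Filter.Eventually.of_forall fun i x hx => by cases hx
  · filter_upwards [ev_pp U M x] with i hi x' hx'
    cases hx'
    exact hi

theorem ev_qq' (a b : (uMod U M).Al) : ∀ᶠ i in (U : Filter I), ∀ x x', pt a = some x →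
    pt b = some x' → QQ (M' := M i) (pull U M i) x x' := by
  rcases h : pt a with _ | x
  · exact Filter.Eventually.of_forall fun i x x' hx => by cases hx
  · rcases h' : pt b with _ | x'
    · exact Filter.Eventually.of_forall fun i x x' _ hx' => by cases hx'
    · filter_upwards [ev_qq U M x x'] with i hi y y' hy hy'
      cases hy
      cases hy'
      exact hi

instance : Finite K := Finite.of_injective (fun k : K => (⟨k.n, by cases k <;> decide⟩ : Fin 10))
  fun _ _ h => K.n_inj (congrArg Fin.val h)

theorem exists_lim (g : ∀ i, (M i).Al) :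
    ∃ a : (uMod U M).Al, ∀ᶠ i in (U : Filter I), g i = mapAl (pull U M i) a := by
  classical
  by_cases h1 : ∀ᶠ i in (U : Filter I), ∃ x, g i = Alg.z x
  · let w : UProd U M := fun i => if h : ∃ x, g i = Alg.z x then h.choose else Classical.arbitrary _
    refine ⟨Alg.z ((uPre U M).cl w), ?_⟩
    filter_upwards [h1, pull_cl U M w] with i hi hi'
    have h2 : w i = hi.choose := dif_pos hi
    rw [hi.choose_spec, ← h2, ← hi']
    rfl
  · by_cases h2 : ∀ᶠ i in (U : Filter I), ∃ x, g i = Alg.y x
    · let w : UProd U M := fun i =>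
        if h : ∃ x, g i = Alg.y x then h.choose else Classical.arbitrary _
      refine ⟨Alg.y ((uPre U M).cl w), ?_⟩
      filter_upwards [h2, pull_cl U M w] with i hi hi'
      have h2 : w i = hi.choose := dif_pos hi
      rw [hi.choose_spec, ← h2, ← hi']
      rfl
    · rw [← Ultrafilter.eventually_not] at h1 h2
      let kd : I → K := fun i => match g i with
        | .c k => k
        | _ => .k0
      obtain ⟨k, hk⟩ := Ultrafilter.eq_pure_of_finite (U.map kd)
      have hk' : ∀ᶠ i in (U : Filter I), kd i = k := by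
        have h3 : {k} ∈ U.map kd := by rw [hk]; rfl
        exact h3
      refine ⟨Alg.c k, ?_⟩
      filter_upwards [h1, h2, hk'] with i a b d
      rcases hg : g i with j | x | x
      · have h4 : kd i = j := by simp only [kd, hg]
        rw [← d, h4]
        rfl
      · exact absurd ⟨x, hg⟩ a
      · exact absurd ⟨x, hg⟩ b

theorem los {v : ∀ i, ℕ → (M i).Al} {w : ℕ → (uMod U M).Al}
    (h : ∀ n, ∀ᶠ i in (U : Filter I), v i n = mapAl (pull U M i) (w n)) (φ : Fm) :
    ∀ᶠ i in (U : Filter I), ev (v i) φ = mapAl (pull U M i) (ev w φ) := by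
  induction φ with
  | var n => exact h n
  | zero => exact Filter.Eventually.of_forall fun _ => rfl
  | one => exact Filter.Eventually.of_forall fun _ => rfl
  | and φ ψ ih1 ih2 =>
    filter_upwards [ih1, ih2, ev_qq' U M (ev w φ) (ev w ψ)] with i a b d
    simp only [ev, a, b]
    exact (map_inf _ d).symm
  | or φ ψ ih1 ih2 =>
    filter_upwards [ih1, ih2, ev_qq' U M (ev w φ) (ev w ψ)] with i a b d
    simp only [ev, a, b]
    exact (map_sup _ d).symm
  | mul φ ψ ih1 ih2 =>
    filter_upwards [ih1, ih2, ev_pp' U M (ev w φ), ev_pp' U M (ev w ψ)] with i a b d e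
    simp only [ev, a, b]
    exact (map_mul _ d e).symm
  | imp φ ψ ih1 ih2 =>
    filter_upwards [ih1, ih2, ev_pp' U M (ev w φ), ev_pp' U M (ev w ψ),
      ev_qq' U M (ev w φ) (ev w ψ)] with i a b d e f
    simp only [ev, a, b]
    exact (map_imp _ d e f).symm

theorem uS_iter (m : ℕ) (x : UProd U M) (i : I) : ((uS U M)^[m] x) i = (M i).s^[m] (x i) := by
  induction m generalizing x with
  | zero => rfl
  | succ m ih => rw [Function.iterate_succ_apply, Function.iterate_succ_apply, ih]; rfl

theorem uT_iter (m : ℕ) (x : UProd U M) (i : I) : ((uT U M)^[m] x) i = (M i).t^[m] (x i) := by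
  induction m generalizing x with
  | zero => rfl
  | succ m ih => rw [Function.iterate_succ_apply, Function.iterate_succ_apply, ih]; rfl

theorem uMod_good (θ : ℝ) (h : ∀ i, Good θ (M i)) : Good θ (uMod U M) := by
  apply PreMod.good
  intro m n
  have key1 : (m : ℝ) ≤ n * θ → ∀ x : UProd U M, (uS U M)^[m] x ≤ (uT U M)^[n] x := by
    intro hmn x
    refine Filter.Eventually.of_forall fun i => ?_
    rw [uS_iter, uT_iter]
    exact (h i m n).1 hmn _
  have key2 : n * θ ≤ (m : ℝ) → ∀ x : UProd U M, (uT U M)^[n] x ≤ (uS U M)^[m] x := by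
    intro hmn x
    refine Filter.Eventually.of_forall fun i => ?_
    rw [uS_iter, uT_iter]
    exact (h i m n).2 hmn _
  exact ⟨key1, key2⟩

end uprod

theorem compact_theta (θ : ℝ) : Compact (ι := Ix θ) fun i => i.1.Al := by
  classical
  intro S hS
  have h1 : ∀ s : Finset S, ∃ i : Ix θ, ∃ v : ℕ → i.1.Al, ∀ φ ∈ s, ev v φ.1 = 1 := by
    intro s
    obtain ⟨i, v, hv⟩ := hS (s.toList.map Subtype.val) (by
      intro φ hφ
      obtain ⟨ψ, -, rfl⟩ := List.mem_map.1 hφ
      exact ψ.2)
    exact ⟨i, v, fun φ hφ => hv φ.1 (List.mem_map.2 ⟨φ, Finset.mem_toList.2 hφ, rfl⟩)⟩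
  choose M v hv using h1
  let U : Ultrafilter (Finset S) := Ultrafilter.of Filter.atTop
  choose w hw using fun n : ℕ => exists_lim U (fun s => (M s).1) fun s => v s n
  refine ⟨⟨uMod U fun s => (M s).1, uMod_good U _ θ fun s => (M s).2⟩, w, ?_⟩
  intro φ hφ
  have h4 : ∀ᶠ s in (U : Filter (Finset S)), ev (v s) φ = 1 := by
    have h5 : ∀ᶠ s in Filter.atTop, ev (v s) φ = 1 := by
      filter_upwards [Filter.eventually_ge_atTop {(⟨φ, hφ⟩ : S)}] with s hs
      exact hv s ⟨φ, hφ⟩ (hs (Finset.mem_singleton_self _))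
    exact Ultrafilter.of_le _ h5
  obtain ⟨s, hs1, hs2⟩ := ((los U (fun s => (M s).1) hw φ).and h4).exists
  rw [hs1] at hs2
  exact mapAl_eq_one.1 hs2

end Pool.Agent.X228.MTL
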