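import Pool.Agent.X228.MTL.Compactness
import Pool.Agent.X228.MTL.Amalgam

/-!
# Types, amalgamation of valuations, and the logics `L_θ`
-/

set_option autoImplicit false

namespace Pool.Agent.X228.MTL

/-! ## Uniform terms for the core -/

/-- `β ∧ ¬ β⁴` -/
def cut (β : Fm) : Fm := .and β (neg (pow4 β))

/-- The term for the coatom of the core. -/
def kap (α : Fm) : Fm :=
  .or (.or (cut (neg α)) (cut (.imp (neg α) α))) (.or (cut (.imp α (neg α))) (cut (neg (neg α))))

/-- The terms for the elements of the core, from the term for the coatom. -/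
def kc (β : Fm) : K → Fm
  | .k0 => .zero
  | .k1 => .mul (.mul β β) β
  | .k2 => neg β
  | .k3 => .mul β β
  | .k4 => .imp β (.mul (.mul β β) β)
  | .k5 => neg (neg (.imp β (.mul (.mul β β) β)))
  | .k6 => neg (.imp β (.mul (.mul β β) β))
  | .k7 => .imp β (neg β)
  | .k8 => β
  | .k9 => .one

theorem vars_cut (β : Fm) : (cut β).vars = β.vars := by
  simp [cut, Fm.vars, vars_neg, vars_pow4]

theorem vars_kap (α : Fm) : (kap α).vars = α.vars := by
  simp [kap, Fm.vars, vars_neg, vars_cut]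

theorem vars_kc (β : Fm) (k : K) : (kc β k).vars ⊆ β.vars := by
  cases k <;> simp [kc, Fm.vars, vars_neg]

section
variable {M : Mod}

/-- Constants. -/
def Mod.c (M : Mod) (k : K) : M.Al := Alg.c k

theorem Mod.c_inj {M : Mod} {k k' : K} (h : M.c k = M.c k') : k = k' := by
  have h1 : (Alg.c k : Alg M.X) = Alg.c k' := h
  injection h1

theorem sup_cc (i j : K) : M.c i ⊔ M.c j = M.c (if i.n ≤ j.n then j else i) := by
  by_cases h : i.n ≤ j.n
  · rw [if_pos h]
    exact sup_eq_right.2 ((Alg.le_cc i j).2 h)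
  · rw [if_neg h]
    exact sup_eq_left.2 ((Alg.le_cc j i).2 (le_of_not_ge h))

theorem inf_cc (i j : K) : M.c i ⊓ M.c j = M.c (if i.n ≤ j.n then i else j) := by
  by_cases h : i.n ≤ j.n
  · rw [if_pos h]
    exact inf_eq_left.2 ((Alg.le_cc i j).2 h)
  · rw [if_neg h]
    exact inf_eq_right.2 ((Alg.le_cc j i).2 (le_of_not_ge h))

theorem mul_cc (i j : K) : M.c i * M.c j = M.c (Alg.T i j) := rfl
theorem imp_cc (i j : K) : FLew.imp (M.c i) (M.c j) = M.c (Alg.R i j) := rfl
theorem zero_c : (FLew.zero : M.Al) = M.c .k0 := rfl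
theorem one_c : (1 : M.Al) = M.c .k9 := rfl

theorem ev_cut {v : ℕ → M.Al} {β : Fm} {k : K} (h : ev v β = M.c k) :
    ev v (cut β) = M.c (if k = .k9 then .k0 else k) := by
  have h4 : ev v (pow4 β) = M.c (Alg.T (Alg.T k k) (Alg.T k k)) := by
    simp only [pow4, ev, h, mul_cc]
  simp only [cut, ev, neg, h4, h, zero_c, imp_cc, inf_cc]
  cases k <;> rfl

/-- The value of the term `kap`. -/
theorem ev_kap {v : ℕ → M.Al} {α : Fm} (h0 : ev v α ≠ M.c .k0) (h1 : ev v α ≠ M.c .k9) :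
    ev v (kap α) = M.c .k8 := by
  rcases h : ev v α with k | x | x
  · have h' : ev v α = M.c k := h
    have e1 : ev v (neg α) = M.c (Alg.R k .k0) := by
      simp only [neg, ev, h', zero_c, imp_cc]
    have e2 : ev v (.imp (neg α) α) = M.c (Alg.R (Alg.R k .k0) k) := by
      simp only [ev, e1, h', imp_cc]
    have e3 : ev v (.imp α (neg α)) = M.c (Alg.R k (Alg.R k .k0)) := by
      simp only [ev, e1, h', imp_cc]
    have e4 : ev v (neg (neg α)) = M.c (Alg.R (Alg.R k .k0) .k0) := by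
      have : ev v (neg (neg α)) = FLew.imp (ev v (neg α)) FLew.zero := rfl
      rw [this, e1, zero_c, imp_cc]
    have hk0 : k ≠ .k0 := fun hk => h0 (by rw [h', hk])
    have hk9 : k ≠ .k9 := fun hk => h1 (by rw [h', hk])
    have e5 : ev v (kap α) = (ev v (cut (neg α)) ⊔ ev v (cut (.imp (neg α) α))) ⊔
      (ev v (cut (.imp α (neg α))) ⊔ ev v (cut (neg (neg α)))) := rfl
    rw [e5, ev_cut e1, ev_cut e2, ev_cut e3, ev_cut e4]
    simp only [sup_cc]
    cases k <;> first | rfl | exact absurd rfl hk0 | exact absurd rfl hk9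
  · have h' : ev v α = (Alg.z x : Alg M.X) := h
    have e1 : ev v (neg α) = M.c .k2 := by
      have : ev v (neg α) = FLew.imp (ev v α) FLew.zero := rfl
      rw [this, h']; rfl
    have e2 : ev v (.imp (neg α) α) = M.c .k9 := by
      have : ev v (.imp (neg α) α) = FLew.imp (ev v (neg α)) (ev v α) := rfl
      rw [this, e1, h']; rfl
    have e3 : ev v (.imp α (neg α)) = M.c .k7 := by
      have : ev v (.imp α (neg α)) = FLew.imp (ev v α) (ev v (neg α)) := rfl
      rw [this, e1, h']; rfl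
    have e4 : ev v (neg (neg α)) = M.c .k8 := by
      have : ev v (neg (neg α)) = FLew.imp (ev v (neg α)) FLew.zero := rfl
      rw [this, e1]; rfl
    have e5 : ev v (kap α) = (ev v (cut (neg α)) ⊔ ev v (cut (.imp (neg α) α))) ⊔
      (ev v (cut (.imp α (neg α))) ⊔ ev v (cut (neg (neg α)))) := rfl
    rw [e5, ev_cut e1, ev_cut e2, ev_cut e3, ev_cut e4]
    simp only [sup_cc]
    rfl
  · have h' : ev v α = (Alg.y x : Alg M.X) := h
    have e1 : ev v (neg α) = M.c .k8 := by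
      have : ev v (neg α) = FLew.imp (ev v α) FLew.zero := rfl
      rw [this, h']; rfl
    have e2 : ev v (.imp (neg α) α) = M.c .k4 := by
      have : ev v (.imp (neg α) α) = FLew.imp (ev v (neg α)) (ev v α) := rfl
      rw [this, e1, h']; rfl
    have e3 : ev v (.imp α (neg α)) = M.c .k9 := by
      have : ev v (.imp α (neg α)) = FLew.imp (ev v α) (ev v (neg α)) := rfl
      rw [this, e1, h']; rfl
    have e4 : ev v (neg (neg α)) = M.c .k2 := by
      have : ev v (neg (neg α)) = FLew.imp (ev v (neg α)) FLew.zero := rfl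
      rw [this, e1]; rfl
    have e5 : ev v (kap α) = (ev v (cut (neg α)) ⊔ ev v (cut (.imp (neg α) α))) ⊔
      (ev v (cut (.imp α (neg α))) ⊔ ev v (cut (neg (neg α)))) := rfl
    rw [e5, ev_cut e1, ev_cut e2, ev_cut e3, ev_cut e4]
    simp only [sup_cc]
    rfl

/-- The values of `kap` at `0` and `1`. -/
theorem ev_kap' {v : ℕ → M.Al} {α : Fm} (h : ev v α = M.c .k0 ∨ ev v α = M.c .k9) :
    ev v (kap α) = M.c .k0 := by
  obtain ⟨k, h', hk⟩ : ∃ k, ev v α = M.c k ∧ (k = .k0 ∨ k = .k9) := by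
    rcases h with h | h
    · exact ⟨_, h, Or.inl rfl⟩
    · exact ⟨_, h, Or.inr rfl⟩
  have e1 : ev v (neg α) = M.c (Alg.R k .k0) := by
    simp only [neg, ev, h', zero_c, imp_cc]
  have e2 : ev v (.imp (neg α) α) = M.c (Alg.R (Alg.R k .k0) k) := by
    simp only [ev, e1, h', imp_cc]
  have e3 : ev v (.imp α (neg α)) = M.c (Alg.R k (Alg.R k .k0)) := by
    simp only [ev, e1, h', imp_cc]
  have e4 : ev v (neg (neg α)) = M.c (Alg.R (Alg.R k .k0) .k0) := by
    have : ev v (neg (neg α)) = FLew.imp (ev v (neg α)) FLew.zero := rfl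
    rw [this, e1, zero_c, imp_cc]
  have e5 : ev v (kap α) = (ev v (cut (neg α)) ⊔ ev v (cut (.imp (neg α) α))) ⊔
    (ev v (cut (.imp α (neg α))) ⊔ ev v (cut (neg (neg α)))) := rfl
  rw [e5, ev_cut e1, ev_cut e2, ev_cut e3, ev_cut e4]
  simp only [sup_cc]
  rcases hk with rfl | rfl <;> rfl

theorem ev_kc {v : ℕ → M.Al} {β : Fm} (h : ev v β = M.c .k8) (k : K) :
    ev v (kc β k) = M.c k := by
  cases k <;> simp only [kc, ev, neg, h, zero_c, one_c, imp_cc, mul_cc] <;> rfl

/-- The core elements as terms in `α`. -/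
def kt (α : Fm) (k : K) : Fm := kc (kap α) k

theorem vars_kt (α : Fm) (k : K) : (kt α k).vars ⊆ α.vars := by
  refine (vars_kc _ _).trans ?_
  rw [vars_kap]

theorem ev_kt {v : ℕ → M.Al} {α : Fm} (h0 : ev v α ≠ M.c .k0) (h1 : ev v α ≠ M.c .k9) (k : K) :
    ev v (kt α k) = M.c k := ev_kc (ev_kap h0 h1) k

end

/-! ## Valuations of the same type -/

section types
variable {M M' : Mod} {V : Set ℕ} {v : ℕ → M.Al} {w : ℕ → M'.Al}

/-- Equality of the types over `V`. -/
def SameType (V : Set ℕ) (v : ℕ → M.Al) (w : ℕ → M'.Al) : Prop :=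
  ∀ α : Fm, α.vars ⊆ V → (ev v α = 1 ↔ ev w α = 1)

theorem SameType.symm (h : SameType V v w) : SameType V w v := fun α hα => (h α hα).symm

theorem SameType.eq (h : SameType V v w) {α β : Fm} (hα : α.vars ⊆ V) (hβ : β.vars ⊆ V) :
    ev v α = ev v β ↔ ev w α = ev w β := by
  rw [← ev_eqv, ← ev_eqv]
  refine h _ ?_
  simp only [eqv, Fm.vars]
  exact Set.union_subset (Set.union_subset hα hβ) (Set.union_subset hβ hα)

theorem SameType.le (h : SameType V v w) {α β : Fm} (hα : α.vars ⊆ V) (hβ : β.vars ⊆ V) :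
    ev v α ≤ ev v β ↔ ev w α ≤ ev w β := by
  have h1 := h (.imp α β) (Set.union_subset hα hβ)
  simp only [ev] at h1
  rwa [imp_eq_one, imp_eq_one] at h1

theorem SameType.c0 (h : SameType V v w) {α : Fm} (hα : α.vars ⊆ V) :
    ev v α = M.c .k0 ↔ ev w α = M'.c .k0 :=
  h.eq (β := .zero) hα (Set.empty_subset _)

theorem SameType.c9 (h : SameType V v w) {α : Fm} (hα : α.vars ⊆ V) :
    ev v α = M.c .k9 ↔ ev w α = M'.c .k9 := h α hα

theorem SameType.c (h : SameType V v w) {α : Fm} (hα : α.vars ⊆ V) (k : K) :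
    ev v α = M.c k → ev w α = M'.c k := by
  intro h1
  by_cases hk0 : k = .k0
  · rw [hk0] at h1 ⊢
    exact (h.c0 hα).1 h1
  by_cases hk9 : k = .k9
  · rw [hk9] at h1 ⊢
    exact (h.c9 hα).1 h1
  have h2 : ev v α ≠ M.c .k0 := fun h3 => hk0 (Mod.c_inj (h1.symm.trans h3))
  have h3 : ev v α ≠ M.c .k9 := fun h3 => hk9 (Mod.c_inj (h1.symm.trans h3))
  have h4 : ev v α = ev v (kt α k) := by rw [ev_kt h2 h3, h1]
  rw [h.eq hα ((vars_kt α k).trans hα), ev_kt (fun g => h2 ((h.c0 hα).2 g))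
    (fun g => h3 ((h.c9 hα).2 g))] at h4
  exact h4

/-- elements of the upper copy -/
def Mod.z (M : Mod) (x : M.X) : M.Al := Alg.z x
/-- elements of the lower copy -/
def Mod.y (M : Mod) (x : M.X) : M.Al := Alg.y x

theorem cases_al (a : M.Al) : (∃ k, a = M.c k) ∨ (∃ x, a = M.z x) ∨ ∃ x, a = M.y x := by
  rcases a with k | x | x
  · exact Or.inl ⟨k, rfl⟩
  · exact Or.inr (Or.inl ⟨x, rfl⟩)
  · exact Or.inr (Or.inr ⟨x, rfl⟩)

theorem z_ne_c (x : M.X) (k : K) : M.z x ≠ M.c k := by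
  intro h
  have h1 : (Alg.z x : Alg M.X) = Alg.c k := h
  cases h1

theorem y_ne_c (x : M.X) (k : K) : M.y x ≠ M.c k := by
  intro h
  have h1 : (Alg.y x : Alg M.X) = Alg.c k := h
  cases h1

theorem SameType.z (h : SameType V v w) {α : Fm} (hα : α.vars ⊆ V) {x : M.X}
    (hx : ev v α = M.z x) : ∃ x', ev w α = M'.z x' := by
  have h0 : ev v α ≠ M.c .k0 := by rw [hx]; exact z_ne_c _ _
  have h9 : ev v α ≠ M.c .k9 := by rw [hx]; exact z_ne_c _ _
  have h0' : ev w α ≠ M'.c .k0 := fun g => h0 ((h.c0 hα).2 g)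
  have h9' : ev w α ≠ M'.c .k9 := fun g => h9 ((h.c9 hα).2 g)
  have h7 : ev v (kt α .k7) ≤ ev v α := by
    rw [ev_kt h0 h9, hx]
    exact (Alg.le_cz _ _).2 (by decide)
  rw [h.le ((vars_kt α _).trans hα) hα, ev_kt h0' h9'] at h7
  rcases cases_al (ev w α) with ⟨k, hk⟩ | ⟨x', hx'⟩ | ⟨x', hx'⟩
  · exfalso
    have h1 := h.symm.c hα k hk
    rw [hx] at h1
    exact z_ne_c _ _ h1
  · exact ⟨x', hx'⟩
  · exfalso
    rw [hx'] at h7
    have h1 := (Alg.le_cy .k7 x').1 h7
    revert h1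
    decide

theorem SameType.y (h : SameType V v w) {α : Fm} (hα : α.vars ⊆ V) {x : M.X}
    (hx : ev v α = M.y x) : ∃ x', ev w α = M'.y x' := by
  rcases cases_al (ev w α) with ⟨k, hk⟩ | ⟨x', hx'⟩ | ⟨x', hx'⟩
  · exfalso
    have h1 := h.symm.c hα k hk
    rw [hx] at h1
    exact y_ne_c _ _ h1
  · exfalso
    obtain ⟨x'', hx''⟩ := h.symm.z hα hx'
    rw [hx] at hx''
    have h1 : (Alg.y x : Alg M.X) = Alg.z x'' := hx''
    cases h1
  · exact ⟨x', hx'⟩

/-- The partial isomorphism between the chains. -/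
def rr (V : Set ℕ) (v : ℕ → M.Al) (w : ℕ → M'.Al) (x : M.X) (x' : M'.X) : Prop :=
  ∃ α : Fm, α.vars ⊆ V ∧ ev v α = M.z x ∧ ev w α = M'.z x'

/-- Terms for the automorphisms. -/
def up (i j : K) (α : Fm) : Fm := .imp (kt α i) (.mul (kt α j) α)

theorem vars_up (i j : K) (α : Fm) : (up i j α).vars ⊆ α.vars := by
  simp only [up, Fm.vars]
  exact Set.union_subset (vars_kt _ _) (Set.union_subset (vars_kt _ _) subset_rfl)

theorem ev_up {i j : K} {α : Fm} {x : M.X} (hx : ev v α = M.z x) :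
    ev v (up i j α) = FLew.imp (M.c i) (M.c j * M.z x) := by
  have h0 : ev v α ≠ M.c .k0 := by rw [hx]; exact z_ne_c _ _
  have h9 : ev v α ≠ M.c .k9 := by rw [hx]; exact z_ne_c _ _
  simp only [up, ev]
  rw [ev_kt h0 h9, ev_kt h0 h9, hx]

theorem ev_up_s {α : Fm} {x : M.X} (hx : ev v α = M.z x) :
    ev v (up .k6 .k7 α) = M.z (M.s x) := by rw [ev_up hx]; rfl
theorem ev_up_t {α : Fm} {x : M.X} (hx : ev v α = M.z x) :
    ev v (up .k5 .k7 α) = M.z (M.t x) := by rw [ev_up hx]; rfl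
theorem ev_up_s' {α : Fm} {x : M.X} (hx : ev v α = M.z x) :
    ev v (up .k7 .k6 α) = M.z (M.s.symm x) := by rw [ev_up hx]; rfl
theorem ev_up_t' {α : Fm} {x : M.X} (hx : ev v α = M.z x) :
    ev v (up .k7 .k5 α) = M.z (M.t.symm x) := by rw [ev_up hx]; rfl

theorem SameType.piso (h : SameType V v w) : PIso (rr V v w) where
  le := by
    rintro x x' y y' ⟨α, hα, h1, h2⟩ ⟨β, hβ, h3, h4⟩
    have h5 := h.le hα hβ
    rw [h1, h2, h3, h4] at h5
    exact (Alg.le_zz x y).symm.trans (h5.trans (Alg.le_zz x' y'))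
  s := by
    rintro x x' ⟨α, hα, h1, h2⟩
    exact ⟨_, (vars_up .k6 .k7 α).trans hα, ev_up_s h1, ev_up_s h2⟩
  t := by
    rintro x x' ⟨α, hα, h1, h2⟩
    exact ⟨_, (vars_up .k5 .k7 α).trans hα, ev_up_t h1, ev_up_t h2⟩
  s' := by
    rintro x x' ⟨α, hα, h1, h2⟩
    exact ⟨_, (vars_up .k7 .k6 α).trans hα, ev_up_s' h1, ev_up_s' h2⟩
  t' := by
    rintro x x' ⟨α, hα, h1, h2⟩
    exact ⟨_, (vars_up .k7 .k5 α).trans hα, ev_up_t' h1, ev_up_t' h2⟩

end types

/-! ## The logics -/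

theorem amalg_theta (θ : ℝ) : Amalg (ι := Ix θ) fun i => i.1.Al := by
  intro V i j v w hvw
  have h : SameType V v w := hvw
  refine ⟨⟨(amPre h.piso).toMod, am_good h.piso i.2 j.2⟩, fun n => mapAl (amL h.piso) (v n),
    fun n => mapAl (amR h.piso) (w n), fun α => (amL_emb h.piso).ev_eq_one v α,
    fun α => (amR_emb h.piso).ev_eq_one w α, ?_⟩
  intro n hn
  have hvar : (Fm.var n).vars ⊆ V := by
    rintro m rfl
    exact hn
  change mapAl (amL h.piso) (v n) = mapAl (amR h.piso) (w n)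
  rcases cases_al (v n) with ⟨k, hk⟩ | ⟨x, hx⟩ | ⟨x, hx⟩
  · have h1 : ev w (.var n) = j.1.c k := h.c hvar k hk
    have h2 : w n = j.1.c k := h1
    rw [hk, h2]
    rfl
  · obtain ⟨x', hx'⟩ := h.z (α := .var n) hvar hx
    have h2 : w n = j.1.z x' := hx'
    rw [hx, h2]
    exact congrArg Alg.z (amL_eq h.piso ⟨.var n, hvar, hx, hx'⟩)
  · obtain ⟨x', hx'⟩ := h.y (α := .var n) hvar hx
    have h2 : w n = j.1.y x' := hx'
    have h0 : ev v (.var n) ≠ i.1.c .k0 := by
      have : ev v (.var n) = i.1.y x := hx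
      rw [this]; exact y_ne_c _ _
    have h9 : ev v (.var n) ≠ i.1.c .k9 := by
      have : ev v (.var n) = i.1.y x := hx
      rw [this]; exact y_ne_c _ _
    have h0' : ev w (.var n) ≠ j.1.c .k0 := fun g => h0 ((h.c0 hvar).2 g)
    have h9' : ev w (.var n) ≠ j.1.c .k9 := fun g => h9 ((h.c9 hvar).2 g)
    have h3 : rr V v w x x' := by
      refine ⟨.imp (kt (.var n) .k7) (.var n),
        Set.union_subset ((vars_kt _ _).trans hvar) hvar, ?_, ?_⟩
      · have e : ev v (.imp (kt (.var n) .k7) (.var n)) =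
            FLew.imp (ev v (kt (.var n) .k7)) (v n) := rfl
        rw [e, ev_kt h0 h9, hx]
        rfl
      · have e : ev w (.imp (kt (.var n) .k7) (.var n)) =
            FLew.imp (ev w (kt (.var n) .k7)) (w n) := rfl
        rw [e, ev_kt h0' h9', h2]
        rfl
    rw [hx, h2]
    exact congrArg Alg.y (amL_eq h.piso h3)

/-- The axioms of the logic `L_θ`. -/
def AxTheta (θ : ℝ) : Set Fm := AxOf (ι := Ix θ) fun i => i.1.Al

/-! ## The logics are pairwise different -/

/-- The chain of the reals with two translations. -/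
noncomputable def realMod (θ : ℝ) (hθ : 1 ≤ θ) : Mod where
  X := ℝ
  s := OrderIso.addRight 1
  t := OrderIso.addRight θ
  h1 x := by simp
  h2 x := by simpa using hθ

theorem realMod_s (θ : ℝ) (hθ : 1 ≤ θ) (m : ℕ) (x : ℝ) :
    (realMod θ hθ).s^[m] x = (x + m : ℝ) := by
  induction m generalizing x with
  | zero => simp
  | succ m ih =>
    rw [Function.iterate_succ_apply, ih]
    change (x + 1 + m : ℝ) = x + (m + 1 : ℕ)
    push_cast
    ring

theorem realMod_t (θ : ℝ) (hθ : 1 ≤ θ) (m : ℕ) (x : ℝ) :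
    (realMod θ hθ).t^[m] x = (x + m * θ : ℝ) := by
  induction m generalizing x with
  | zero => simp
  | succ m ih =>
    rw [Function.iterate_succ_apply, ih]
    change (x + θ + m * θ : ℝ) = x + (m + 1 : ℕ) * θ
    push_cast
    ring

theorem realMod_good (θ : ℝ) (hθ : 1 ≤ θ) : Good θ (realMod θ hθ) := by
  intro m n
  constructor
  · intro h x
    rw [realMod_s, realMod_t]
    exact add_le_add_right h x
  · intro h x
    rw [realMod_s, realMod_t]
    exact add_le_add_right h x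

/-- Iterated terms. -/
def upn (i : K) : ℕ → Fm → Fm
  | 0, α => α
  | m + 1, α => upn i m (up i .k7 α)

theorem ev_upn_s {M : Mod} {v : ℕ → M.Al} (m : ℕ) {α : Fm} {x : M.X} (hx : ev v α = M.z x) :
    ev v (upn .k6 m α) = M.z (M.s^[m] x) := by
  induction m generalizing α x with
  | zero => exact hx
  | succ m ih => exact ih (ev_up_s hx)

theorem ev_upn_t {M : Mod} {v : ℕ → M.Al} (m : ℕ) {α : Fm} {x : M.X} (hx : ev v α = M.z x) :
    ev v (upn .k5 m α) = M.z (M.t^[m] x) := by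
  induction m generalizing α x with
  | zero => exact hx
  | succ m ih => exact ih (ev_up_t hx)

/-- The formula expressing that the variable `0` is in the upper copy. -/
def isZ : Fm := .and (pow4 (.imp (kt (.var 0) .k7) (.var 0)))
  (.and (neg (pow4 (.imp (.var 0) (kt (.var 0) .k7))))
    (.and (pow4 (.imp (.var 0) (kt (.var 0) .k8))) (neg (pow4 (.imp (kt (.var 0) .k8) (.var 0))))))

/-- The separating formula: if the variable `0` is in the upper copy then `t^n ≤ s^m`. -/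
def sep (m n : ℕ) : Fm := .imp isZ (.imp (upn .k5 n (.var 0)) (upn .k6 m (.var 0)))

theorem ev_inf_zero {M : Mod} {a b : M.Al} (h : a = M.c .k0 ∨ b = M.c .k0) :
    a ⊓ b = M.c .k0 := by
  have hz : M.c .k0 = (FLew.zero : M.Al) := rfl
  rcases h with h | h
  · rw [h, hz]; exact inf_eq_left.2 (zero_le_ _)
  · rw [h, hz]; exact inf_eq_right.2 (zero_le_ _)

theorem pow4_c {M : Mod} {k : K} (hk : k ≠ .k9) : (M.c k) ^ 4 = M.c .k0 := by
  rcases al_nil M (M.c k) with h | h
  · exact absurd (Mod.c_inj h) hk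
  · exact h

/-- The four conjuncts of `isZ`. -/
theorem ev_isZ {M : Mod} (v : ℕ → M.Al) : ev v isZ =
    (FLew.imp (ev v (kt (.var 0) .k7)) (v 0)) ^ 4 ⊓
      (FLew.imp ((FLew.imp (v 0) (ev v (kt (.var 0) .k7))) ^ 4) FLew.zero ⊓
        ((FLew.imp (v 0) (ev v (kt (.var 0) .k8))) ^ 4 ⊓
          FLew.imp ((FLew.imp (ev v (kt (.var 0) .k8)) (v 0)) ^ 4) FLew.zero)) := by
  have e1 : ev v isZ = ev v (pow4 (.imp (kt (.var 0) .k7) (.var 0))) ⊓
      (FLew.imp (ev v (pow4 (.imp (.var 0) (kt (.var 0) .k7)))) FLew.zero ⊓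
        (ev v (pow4 (.imp (.var 0) (kt (.var 0) .k8))) ⊓
          FLew.imp (ev v (pow4 (.imp (kt (.var 0) .k8) (.var 0)))) FLew.zero)) := rfl
  rw [e1, ev_pow4, ev_pow4, ev_pow4, ev_pow4]
  rfl

theorem isZ_z {M : Mod} {v : ℕ → M.Al} {x : M.X} (hx : v 0 = M.z x) : ev v isZ = 1 := by
  have hx' : ev v (.var 0) = M.z x := hx
  have h0 : ev v (.var 0) ≠ M.c .k0 := by rw [hx']; exact z_ne_c _ _
  have h9 : ev v (.var 0) ≠ M.c .k9 := by rw [hx']; exact z_ne_c _ _
  rw [ev_isZ, ev_kt h0 h9, ev_kt h0 h9, hx]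
  have e1 : FLew.imp (M.c .k7) (M.z x) = 1 := rfl
  have e2 : FLew.imp (M.z x) (M.c .k7) = M.c .k8 := rfl
  have e3 : FLew.imp (M.z x) (M.c .k8) = 1 := rfl
  have e4 : FLew.imp (M.c .k8) (M.z x) = M.c .k8 := rfl
  rw [e1, e2, e3, e4, one_pow, pow4_c (by decide)]
  have e5 : FLew.imp (M.c .k0) (FLew.zero : M.Al) = 1 := rfl
  rw [e5, inf_idem, inf_idem, inf_idem]

theorem isZ_not_z {M : Mod} {v : ℕ → M.Al} (hx : ∀ x, v 0 ≠ M.z x) : ev v isZ = M.c .k0 := by
  rcases cases_al (v 0) with ⟨k, hk⟩ | ⟨x, hx'⟩ | ⟨x, hx'⟩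
  · by_cases hk0 : k = .k0
    · have h1 := ev_kap' (v := v) (α := .var 0) (Or.inl (by rw [← hk0]; exact hk))
      have h2 : ev v (kt (.var 0) .k7) = M.c .k9 := by
        have : ev v (kt (.var 0) .k7) =
          FLew.imp (ev v (kap (.var 0))) (FLew.imp (ev v (kap (.var 0))) FLew.zero) := rfl
        rw [this, h1]; rfl
      rw [ev_isZ]
      apply ev_inf_zero
      left
      rw [h2, hk, hk0, imp_cc]
      exact pow4_c (by decide)
    · by_cases hk9 : k = .k9
      · have h1 := ev_kap' (v := v) (α := .var 0) (Or.inr (by rw [← hk9]; exact hk))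
        have h2 : ev v (kt (.var 0) .k7) = M.c .k9 := by
          have : ev v (kt (.var 0) .k7) =
            FLew.imp (ev v (kap (.var 0))) (FLew.imp (ev v (kap (.var 0))) FLew.zero) := rfl
          rw [this, h1]; rfl
        rw [ev_isZ]
        apply ev_inf_zero
        right
        apply ev_inf_zero
        left
        have e : FLew.imp (M.c .k9) (M.c .k9) = (1 : M.Al) := rfl
        rw [h2, hk, hk9, e, one_pow]
        rfl
      · have hk' : ev v (.var 0) = M.c k := hk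
        have h0 : ev v (.var 0) ≠ M.c .k0 := fun h => hk0 (Mod.c_inj (hk'.symm.trans h))
        have h9 : ev v (.var 0) ≠ M.c .k9 := fun h => hk9 (Mod.c_inj (hk'.symm.trans h))
        rw [ev_isZ, ev_kt h0 h9, ev_kt h0 h9, hk, imp_cc, imp_cc, imp_cc, imp_cc]
        by_cases h7 : k = .k7 ∨ k = .k8
        · rcases h7 with rfl | rfl
          · apply ev_inf_zero
            right
            apply ev_inf_zero
            left
            have e : M.c (Alg.R .k7 .k7) = (1 : M.Al) := rfl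
            rw [e, one_pow]
            rfl
          · apply ev_inf_zero
            right
            apply ev_inf_zero
            right
            apply ev_inf_zero
            right
            have e : M.c (Alg.R .k8 .k8) = (1 : M.Al) := rfl
            rw [e, one_pow]
            rfl
        · apply ev_inf_zero
          left
          apply pow4_c
          push Not at h7
          cases k <;> first | decide | exact absurd rfl h7.1 | exact absurd rfl h7.2 |
            exact absurd rfl hk9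
  · exact absurd hx' (hx x)
  · have hk' : ev v (.var 0) = M.y x := hx'
    have h0 : ev v (.var 0) ≠ M.c .k0 := by rw [hk']; exact y_ne_c _ _
    have h9 : ev v (.var 0) ≠ M.c .k9 := by rw [hk']; exact y_ne_c _ _
    rw [ev_isZ, ev_kt h0 h9, ev_kt h0 h9, hx']
    apply ev_inf_zero
    left
    have e1 : FLew.imp (M.c .k7) (M.y x) = M.z x := rfl
    rw [e1]
    rcases al_nil M (M.z x) with h | h
    · exact absurd h (z_ne_c _ _)
    · exact h

theorem ev_sep {M : Mod} (v : ℕ → M.Al) (m n : ℕ) : ev v (sep m n) = 1 ↔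
    ∀ x, v 0 = M.z x → M.t^[n] x ≤ M.s^[m] x := by
  have e : ev v (sep m n) = FLew.imp (ev v isZ)
      (FLew.imp (ev v (upn .k5 n (.var 0))) (ev v (upn .k6 m (.var 0)))) := rfl
  by_cases h : ∃ x, v 0 = M.z x
  · obtain ⟨x, hx⟩ := h
    rw [e, isZ_z hx, one_imp, imp_eq_one, ev_upn_t n (α := .var 0) hx,
      ev_upn_s m (α := .var 0) hx]
    constructor
    · intro h x' hx'
      have h1 : (Alg.z x : Alg M.X) = Alg.z x' := hx.symm.trans hx'
      have h2 : x = x' := by injection h1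
      rw [← h2]
      exact (Alg.le_zz _ _).1 h
    · intro h
      exact (Alg.le_zz _ _).2 (h x hx)
  · push Not at h
    rw [e, isZ_not_z h, imp_eq_one]
    constructor
    · intro _ x hx
      exact absurd hx (h x)
    · intro _
      exact zero_le_ _

theorem sep_mem {θ : ℝ} {m n : ℕ} (h : n * θ ≤ m) : sep m n ∈ AxTheta θ := by
  intro i v
  rw [ev_sep]
  intro x _
  exact (i.2 m n).2 h x

theorem sep_not {θ : ℝ} (hθ : 1 ≤ θ) {m n : ℕ} (h : m < n * θ) : sep m n ∉ AxTheta θ := by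
  intro h1
  have h2 := h1 ⟨realMod θ hθ, realMod_good θ hθ⟩ fun _ => (realMod θ hθ).z (0 : ℝ)
  rw [ev_sep] at h2
  have h3 := h2 (0 : ℝ) rfl
  rw [realMod_s, realMod_t] at h3
  have h4 : (0 : ℝ) + n * θ ≤ 0 + m := h3
  linarith

theorem AxTheta_inj {θ θ' : ℝ} (hθ : 1 ≤ θ) (hθ' : 1 ≤ θ') (h : AxTheta θ = AxTheta θ') :
    θ = θ' := by
  have key : ∀ a b : ℝ, 1 ≤ a → 1 ≤ b → AxTheta a = AxTheta b → ¬ a < b := by
    intro a b ha hb hab hlt
    obtain ⟨q, hq1, hq2⟩ := exists_rat_btwn hlt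
    have hq0 : 0 < q := by
      have : (0 : ℝ) < q := by linarith
      exact_mod_cast this
    have hd : (0 : ℝ) < q.den := by exact_mod_cast q.den_pos
    have hn : ((q.num.toNat : ℕ) : ℝ) = q * q.den := by
      have h1 : ((q.num.toNat : ℤ)) = q.num := Int.toNat_of_nonneg (Rat.num_pos.2 hq0).le
      have h2 : ((q.num.toNat : ℕ) : ℝ) = (q.num : ℝ) := by exact_mod_cast h1
      rw [h2]
      have h3 : (q : ℝ) = q.num / q.den := by exact_mod_cast (Rat.num_div_den q).symm
      rw [h3]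
      field_simp
    have h1 : sep q.num.toNat q.den ∈ AxTheta a := by
      apply sep_mem
      rw [hn, mul_comm]
      exact mul_le_mul_of_nonneg_right hq1.le hd.le
    rw [hab] at h1
    refine sep_not hb ?_ h1
    rw [hn, mul_comm]
    exact mul_lt_mul_of_pos_left hq2 hd
  rcases lt_trichotomy θ θ' with h1 | h1 | h1
  · exact absurd h1 (key _ _ hθ hθ' h)
  · exact h1
  · exact absurd h1 (key _ _ hθ' hθ h.symm)

/-- The logic `L_θ` over the base consequence relation `C`. -/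
def Lg (C : Set Fm → Fm → Prop) (θ : ℝ) (Γ : Set Fm) (φ : Fm) : Prop := C (Γ ∪ AxTheta θ) φ

theorem final {C : Set Fm → Fm → Prop}
    (hC1 : ∀ (M : Mod) Γ φ, C Γ φ → ∀ (v : ℕ → M.Al), (∀ γ ∈ Γ, ev v γ = 1) → ev v φ = 1)
    (hC2 : ∀ Γ φ, (∀ (A : Type) [FLew A] (v : ℕ → A), (∀ γ ∈ Γ, ev v γ = 1) → ev v φ = 1) →
      C Γ φ) : ¬ Set.Countable {L | IsAxExt C L ∧ DIP L} := by
  have key : ∀ θ, (∀ Γ φ, C (Γ ∪ AxTheta θ) φ ↔ KConseq (ι := Ix θ) (fun i => i.1.Al) Γ φ) ∧
      DIP (Lg C θ) := fun θ => dip_of (Al := fun i : Ix θ => i.1.Al)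
    (fun Γ φ h i v => hC1 i.1 Γ φ h v) hC2 (fun i x => al_nil i.1 x)
    (fun i => al_zero_ne_one i.1) (compact_theta θ) (amalg_theta θ)
  have inj : ∀ θ θ', 1 ≤ θ → 1 ≤ θ' → Lg C θ = Lg C θ' → θ = θ' := by
    intro θ θ' hθ hθ' h
    apply AxTheta_inj hθ hθ'
    have aux : ∀ a, AxTheta a = {φ | Lg C a ∅ φ} := by
      intro a
      ext φ
      have h1 := (key a).1 ∅ φ
      constructor
      · intro h2
        exact h1.2 fun i v _ => h2 i v
      · intro h2 i v
        exact h1.1 h2 i v (by simp)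
    rw [aux, aux, h]
  intro hc
  have h1 : (Set.Ici (1 : ℝ)).Countable := by
    have h2 : Set.MapsTo (Lg C) (Set.Ici 1) {L | IsAxExt C L ∧ DIP L} := by
      intro θ _
      exact ⟨⟨AxTheta θ, AxOf_subst _, fun Γ φ => Iff.rfl⟩, (key θ).2⟩
    exact Set.MapsTo.countable_of_injOn h2 (fun a ha b hb hab => inj a b ha hb hab) hc
  have h3 := Cardinal.mk_Ici_real (1 : ℝ)
  have h4 := Cardinal.le_aleph0_iff_set_countable.2 h1
  rw [h3] at h4
  exact absurd h4 (not_le.2 Cardinal.aleph0_lt_continuum)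

end Pool.Agent.X228.MTL
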