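import Pool.Agent.X228.MTL.Alg

/-!
# The logics `L_θ`: compactness, amalgamation, deductive interpolation
-/

set_option autoImplicit false

namespace Pool.Agent.X228.MTL

open Alg

/-! ## Basic properties of the chains -/

section props
variable (M : Mod)

theorem al_prelinear : Prelinear M.Al := by
  intro a b
  rcases le_total a b with h | h
  · have h1 : FLew.imp a b = 1 := imp_eq_one.2 h
    rw [h1]
    exact sup_eq_left.2 (le_one_ _)
  · have h1 : FLew.imp b a = 1 := imp_eq_one.2 h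
    rw [h1]
    exact sup_eq_right.2 (le_one_ _)

theorem al_zero_ne_one : (FLew.zero : M.Al) ≠ 1 := by
  intro h
  have h1 : (Alg.c .k0 : Alg M.X) = Alg.c .k9 := h
  cases h1

theorem al_nil (x : M.Al) : x = 1 ∨ x ^ 4 = FLew.zero := by
  have h : x ^ 4 = (x * x) * (x * x) := by rw [← pow_two, ← pow_two, ← pow_mul]
  rw [h]
  rcases x with i | x | x
  · by_cases hi : i = .k9
    · left; rw [hi]; rfl
    · right
      cases i <;> first | rfl | exact absurd rfl hi
  · right; rfl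
  · right; rfl

end props

/-! ## Maps -/

section maps
variable {M M' : Mod} (f : M.X → M'.X)

/-- The map induced on the chains. -/
def mapAl : M.Al → M'.Al
  | .c i => Alg.c i
  | .z x => Alg.z (f x)
  | .y x => Alg.y (f x)

/-- The point under an element. -/
def pt {X : Type} : Alg X → Option X
  | .c _ => none
  | .z x => some x
  | .y x => some x

/-- `f` commutes with the automorphisms at `x`. -/
def PP (x : M.X) : Prop :=
  f (M.s x) = M'.s (f x) ∧ f (M.s.symm x) = M'.s.symm (f x) ∧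
    f (M.t x) = M'.t (f x) ∧ f (M.t.symm x) = M'.t.symm (f x)

/-- `f` respects the comparisons of `x` and `x'`. -/
def QQ (x x' : M.X) : Prop :=
  (x ≤ x' ↔ f x ≤ f x') ∧ (x ≤ M.s x' ↔ f x ≤ M'.s (f x')) ∧ (x ≤ M.t x' ↔ f x ≤ M'.t (f x'))

theorem map_mul {a b : M.Al} (ha : ∀ x, pt a = some x → PP f x)
    (hb : ∀ x, pt b = some x → PP f x) : mapAl f (a * b) = mapAl f a * mapAl f b := by
  rcases a with i | x | x <;> rcases b with j | x' | x'
  · rfl
  · obtain ⟨_, h2, _, h4⟩ := hb x' rfl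
    cases i <;> first | rfl | exact congrArg Alg.y h2 | exact congrArg Alg.y h4
  · cases i <;> rfl
  · obtain ⟨_, h2, _, h4⟩ := ha x rfl
    cases j <;> first | rfl | exact congrArg Alg.y h2 | exact congrArg Alg.y h4
  · rfl
  · rfl
  · cases j <;> rfl
  · rfl
  · rfl

theorem imp_zz_pos {M : Mod} {x x' : M.X} (h : x ≤ x') :
    @FLew.imp M.Al _ (Alg.z x) (Alg.z x') = Alg.c .k9 := if_pos h
theorem imp_zz_neg {M : Mod} {x x' : M.X} (h : ¬ x ≤ x') :
    @FLew.imp M.Al _ (Alg.z x) (Alg.z x') = Alg.c .k8 := if_neg h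
theorem imp_yy_pos {M : Mod} {x x' : M.X} (h : x ≤ x') :
    @FLew.imp M.Al _ (Alg.y x) (Alg.y x') = Alg.c .k9 := if_pos h
theorem imp_yy_neg {M : Mod} {x x' : M.X} (h : ¬ x ≤ x') :
    @FLew.imp M.Al _ (Alg.y x) (Alg.y x') = Alg.c .k8 := if_neg h
theorem imp_zy_1 {M : Mod} {x x' : M.X} (h : x ≤ x') :
    @FLew.imp M.Al _ (Alg.z x) (Alg.y x') = Alg.c .k7 := if_pos h
theorem imp_zy_2 {M : Mod} {x x' : M.X} (h : ¬ x ≤ x') (h' : x ≤ M.s x') :
    @FLew.imp M.Al _ (Alg.z x) (Alg.y x') = Alg.c .k6 := (if_neg h).trans (if_pos h')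
theorem imp_zy_3 {M : Mod} {x x' : M.X} (h : ¬ x ≤ x') (h' : ¬ x ≤ M.s x') (h'' : x ≤ M.t x') :
    @FLew.imp M.Al _ (Alg.z x) (Alg.y x') = Alg.c .k5 :=
  (if_neg h).trans ((if_neg h').trans (if_pos h''))
theorem imp_zy_4 {M : Mod} {x x' : M.X} (h : ¬ x ≤ x') (h' : ¬ x ≤ M.s x')
    (h'' : ¬ x ≤ M.t x') :
    @FLew.imp M.Al _ (Alg.z x) (Alg.y x') = Alg.c .k4 :=
  (if_neg h).trans ((if_neg h').trans (if_neg h''))

theorem map_imp {a b : M.Al} (_ha : ∀ x, pt a = some x → PP f x)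
    (hb : ∀ x, pt b = some x → PP f x)
    (hab : ∀ x x', pt a = some x → pt b = some x' → QQ f x x') :
    mapAl f (FLew.imp a b) = FLew.imp (mapAl f a) (mapAl f b) := by
  rcases a with i | x | x <;> rcases b with j | x' | x'
  · rfl
  · cases i <;> rfl
  · obtain ⟨h1, _, h3, _⟩ := hb x' rfl
    cases i <;> first | rfl | exact congrArg Alg.z h1 | exact congrArg Alg.z h3
  · rfl
  · obtain ⟨h1, _, _⟩ := hab x x' rfl rfl
    by_cases h : x ≤ x'
    · exact (congrArg (mapAl f) (imp_zz_pos h)).trans (imp_zz_pos (h1.1 h)).symm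
    · exact (congrArg (mapAl f) (imp_zz_neg h)).trans (imp_zz_neg fun h' => h (h1.2 h')).symm
  · obtain ⟨h1, h2, h3⟩ := hab x x' rfl rfl
    by_cases h : x ≤ x'
    · exact (congrArg (mapAl f) (imp_zy_1 h)).trans (imp_zy_1 (h1.1 h)).symm
    · by_cases h' : x ≤ M.s x'
      · exact (congrArg (mapAl f) (imp_zy_2 h h')).trans
          (imp_zy_2 (fun g => h (h1.2 g)) (h2.1 h')).symm
      · by_cases h'' : x ≤ M.t x'
        · exact (congrArg (mapAl f) (imp_zy_3 h h' h'')).trans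
            (imp_zy_3 (fun g => h (h1.2 g)) (fun g => h' (h2.2 g)) (h3.1 h'')).symm
        · exact (congrArg (mapAl f) (imp_zy_4 h h' h'')).trans
            (imp_zy_4 (fun g => h (h1.2 g)) (fun g => h' (h2.2 g)) (fun g => h'' (h3.2 g))).symm
  · rfl
  · rfl
  · obtain ⟨h1, _, _⟩ := hab x x' rfl rfl
    by_cases h : x ≤ x'
    · exact (congrArg (mapAl f) (imp_yy_pos h)).trans (imp_yy_pos (h1.1 h)).symm
    · exact (congrArg (mapAl f) (imp_yy_neg h)).trans (imp_yy_neg fun h' => h (h1.2 h')).symm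

theorem map_le {a b : M.Al} (hab : ∀ x x', pt a = some x → pt b = some x' → QQ f x x') :
    a ≤ b ↔ mapAl f a ≤ mapAl f b := by
  rcases a with i | x | x <;> rcases b with j | x' | x'
  · exact (le_cc i j).trans (le_cc i j).symm
  · exact (le_cz i x').trans (le_cz i (f x')).symm
  · exact (le_cy i x').trans (le_cy i (f x')).symm
  · exact (le_zc j x).trans (le_zc j (f x)).symm
  · exact (le_zz x x').trans ((hab x x' rfl rfl).1.trans (le_zz (f x) (f x')).symm)
  · exact (le_zy x x').trans (le_zy (f x) (f x')).symm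
  · exact (le_yc j x).trans (le_yc j (f x)).symm
  · exact (le_yz x x').trans (le_yz (f x) (f x')).symm
  · exact (le_yy x x').trans ((hab x x' rfl rfl).1.trans (le_yy (f x) (f x')).symm)

theorem map_inf {a b : M.Al} (hab : ∀ x x', pt a = some x → pt b = some x' → QQ f x x') :
    mapAl f (a ⊓ b) = mapAl f a ⊓ mapAl f b := by
  by_cases h : a ≤ b
  · rw [inf_eq_left.2 h, inf_eq_left.2 ((map_le f hab).1 h)]
  · have h' : ¬ mapAl f a ≤ mapAl f b := fun h' => h ((map_le f hab).2 h')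
    rw [inf_eq_right.2 (le_of_not_ge h), inf_eq_right.2 (le_of_not_ge h')]

theorem map_sup {a b : M.Al} (hab : ∀ x x', pt a = some x → pt b = some x' → QQ f x x') :
    mapAl f (a ⊔ b) = mapAl f a ⊔ mapAl f b := by
  by_cases h : a ≤ b
  · rw [sup_eq_right.2 h, sup_eq_right.2 ((map_le f hab).1 h)]
  · have h' : ¬ mapAl f a ≤ mapAl f b := fun h' => h ((map_le f hab).2 h')
    rw [sup_eq_left.2 (le_of_not_ge h), sup_eq_left.2 (le_of_not_ge h')]

theorem map_one : mapAl f (1 : M.Al) = 1 := rfl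
theorem map_zero : mapAl f (FLew.zero : M.Al) = FLew.zero := rfl

/-- Embeddings of chains with automorphisms. -/
structure IsEmb : Prop where
  le : ∀ x x', x ≤ x' ↔ f x ≤ f x'
  s : ∀ x, f (M.s x) = M'.s (f x)
  t : ∀ x, f (M.t x) = M'.t (f x)

variable {f}

theorem IsEmb.pp (h : IsEmb f) (x : M.X) : PP f x := by
  refine ⟨h.s x, ?_, h.t x, ?_⟩
  · rw [OrderIso.eq_symm_apply, ← h.s, OrderIso.apply_symm_apply]
  · rw [OrderIso.eq_symm_apply, ← h.t, OrderIso.apply_symm_apply]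

theorem IsEmb.qq (h : IsEmb f) (x x' : M.X) : QQ f x x' := by
  refine ⟨h.le _ _, ?_, ?_⟩
  · rw [← h.s]; exact h.le _ _
  · rw [← h.t]; exact h.le _ _

theorem IsEmb.ev (h : IsEmb f) (v : ℕ → M.Al) (φ : Fm) :
    ev (fun n => mapAl f (v n)) φ = mapAl f (ev v φ) := by
  induction φ with
  | var n => rfl
  | zero => rfl
  | one => rfl
  | and φ ψ ih1 ih2 =>
    simp only [MTL.ev, ih1, ih2]
    exact (map_inf f fun x x' _ _ => h.qq x x').symm
  | or φ ψ ih1 ih2 =>
    simp only [MTL.ev, ih1, ih2]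
    exact (map_sup f fun x x' _ _ => h.qq x x').symm
  | mul φ ψ ih1 ih2 =>
    simp only [MTL.ev, ih1, ih2]
    exact (map_mul f (fun x _ => h.pp x) (fun x _ => h.pp x)).symm
  | imp φ ψ ih1 ih2 =>
    simp only [MTL.ev, ih1, ih2]
    exact (map_imp f (fun x _ => h.pp x) (fun x _ => h.pp x) fun x x' _ _ => h.qq x x').symm

theorem mapAl_eq_one {a : M.Al} : mapAl f a = 1 ↔ a = 1 := by
  rcases a with i | x | x
  · constructor
    · intro h
      have h1 : (Alg.c i : Alg M'.X) = Alg.c .k9 := h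
      have h2 : i = .k9 := by injection h1
      rw [h2]; rfl
    · intro h
      rw [h]; rfl
  · constructor <;> intro h <;> exact absurd h (by intro h1; cases h1)
  · constructor <;> intro h <;> exact absurd h (by intro h1; cases h1)

theorem IsEmb.ev_eq_one (h : IsEmb f) (v : ℕ → M.Al) (φ : Fm) :
    MTL.ev (fun n => mapAl f (v n)) φ = 1 ↔ MTL.ev v φ = 1 := by
  rw [h.ev, mapAl_eq_one]

end maps

/-! ## Chains with automorphisms from total preorders -/

/-- A total preorder with two automorphisms. -/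
structure PreMod where
  P : Type
  [pre : Preorder P]
  [ne : Nonempty P]
  total : ∀ a b : P, a ≤ b ∨ b ≤ a
  s : P ≃o P
  t : P ≃o P
  h1 : ∀ x, x ≤ s x
  h2 : ∀ x, s x ≤ t x

attribute [instance] PreMod.pre PreMod.ne

section premod
variable (Q : PreMod)

/-- The quotient. -/
abbrev PreMod.Qt : Type := Antisymmetrization Q.P (· ≤ ·)

/-- The quotient map. -/
def PreMod.q (a : Q.P) : Q.Qt := toAntisymmetrization (· ≤ ·) a

theorem PreMod.q_le {a b : Q.P} : Q.q a ≤ Q.q b ↔ a ≤ b :=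
  toAntisymmetrization_le_toAntisymmetrization_iff

theorem PreMod.q_surj (x : Q.Qt) : ∃ a, Q.q a = x := by
  induction x using Antisymmetrization.ind with
  | _ a => exact ⟨a, rfl⟩

theorem PreMod.q_eq {a b : Q.P} : Q.q a = Q.q b ↔ a ≤ b ∧ b ≤ a := by
  rw [le_antisymm_iff, Q.q_le, Q.q_le]

/-- The linear order of the quotient. -/
@[reducible] noncomputable def PreMod.lin : LinearOrder Q.Qt :=
  { (inferInstance : PartialOrder Q.Qt) with
    le_total := by
      intro x y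
      obtain ⟨a, rfl⟩ := Q.q_surj x
      obtain ⟨b, rfl⟩ := Q.q_surj y
      rw [Q.q_le, Q.q_le]
      exact Q.total a b
    toDecidableLE := Classical.decRel _ }

/-- The map induced by an automorphism. -/
noncomputable def PreMod.lift (e : Q.P ≃o Q.P) : Q.Qt → Q.Qt :=
  Quotient.map' e (fun _ _ h => ⟨e.monotone h.1, e.monotone h.2⟩)

theorem PreMod.lift_q (e : Q.P ≃o Q.P) (a : Q.P) : Q.lift e (Q.q a) = Q.q (e a) := rfl

/-- The order isomorphism induced by an automorphism. -/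
noncomputable def PreMod.iso (e : Q.P ≃o Q.P) : Q.Qt ≃o Q.Qt where
  toFun := Q.lift e
  invFun := Q.lift e.symm
  left_inv x := by
    obtain ⟨a, rfl⟩ := Q.q_surj x
    rw [Q.lift_q, Q.lift_q, OrderIso.symm_apply_apply]
  right_inv x := by
    obtain ⟨a, rfl⟩ := Q.q_surj x
    rw [Q.lift_q, Q.lift_q, OrderIso.apply_symm_apply]
  map_rel_iff' := by
    intro x y
    obtain ⟨a, rfl⟩ := Q.q_surj x
    obtain ⟨b, rfl⟩ := Q.q_surj y
    change Q.lift e (Q.q a) ≤ Q.lift e (Q.q b) ↔ _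
    rw [Q.lift_q, Q.lift_q, Q.q_le, Q.q_le]
    exact e.le_iff_le

/-- The quotient as a chain with automorphisms. -/
noncomputable def PreMod.toMod : Mod :=
  letI := Q.lin
  { X := Q.Qt
    lo := Q.lin
    ne := ⟨Q.q (Classical.arbitrary _)⟩
    s := Q.iso Q.s
    t := Q.iso Q.t
    h1 := by
      intro x
      obtain ⟨a, rfl⟩ := Q.q_surj x
      exact Q.q_le.2 (Q.h1 a)
    h2 := by
      intro x
      obtain ⟨a, rfl⟩ := Q.q_surj x
      exact Q.q_le.2 (Q.h2 a) }

/-- The quotient map. -/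
noncomputable def PreMod.cl (a : Q.P) : Q.toMod.X := Q.q a

theorem PreMod.cl_le {a b : Q.P} : Q.cl a ≤ Q.cl b ↔ a ≤ b := Q.q_le
theorem PreMod.cl_s (a : Q.P) : Q.toMod.s (Q.cl a) = Q.cl (Q.s a) := rfl
theorem PreMod.cl_t (a : Q.P) : Q.toMod.t (Q.cl a) = Q.cl (Q.t a) := rfl
theorem PreMod.cl_s' (a : Q.P) : Q.toMod.s.symm (Q.cl a) = Q.cl (Q.s.symm a) := rfl
theorem PreMod.cl_t' (a : Q.P) : Q.toMod.t.symm (Q.cl a) = Q.cl (Q.t.symm a) := rfl
theorem PreMod.cl_surj (x : Q.toMod.X) : ∃ a, Q.cl a = x := Q.q_surj x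
theorem PreMod.cl_eq {a b : Q.P} : Q.cl a = Q.cl b ↔ a ≤ b ∧ b ≤ a := Q.q_eq

theorem PreMod.cl_s_iter (m : ℕ) (a : Q.P) : Q.toMod.s^[m] (Q.cl a) = Q.cl (Q.s^[m] a) := by
  induction m generalizing a with
  | zero => rfl
  | succ m ih => rw [Function.iterate_succ_apply, Function.iterate_succ_apply, Q.cl_s, ih]

theorem PreMod.cl_t_iter (m : ℕ) (a : Q.P) : Q.toMod.t^[m] (Q.cl a) = Q.cl (Q.t^[m] a) := by
  induction m generalizing a with
  | zero => rfl
  | succ m ih => rw [Function.iterate_succ_apply, Function.iterate_succ_apply, Q.cl_t, ih]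

end premod

/-! ## The classes `K_θ` -/

/-- The members of the class with parameter `θ`. -/
def Good (θ : ℝ) (M : Mod) : Prop :=
  ∀ m n : ℕ, ((m : ℝ) ≤ n * θ → ∀ x, M.s^[m] x ≤ M.t^[n] x) ∧
    (n * θ ≤ m → ∀ x, M.t^[n] x ≤ M.s^[m] x)

theorem PreMod.good (Q : PreMod) (θ : ℝ)
    (h : ∀ m n : ℕ, ((m : ℝ) ≤ n * θ → ∀ x, Q.s^[m] x ≤ Q.t^[n] x) ∧
      (n * θ ≤ m → ∀ x, Q.t^[n] x ≤ Q.s^[m] x)) : Good θ Q.toMod := by
  intro m n
  constructor
  · intro hmn x
    obtain ⟨a, rfl⟩ := Q.cl_surj x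
    rw [Q.cl_s_iter, Q.cl_t_iter, Q.cl_le]
    exact (h m n).1 hmn a
  · intro hmn x
    obtain ⟨a, rfl⟩ := Q.cl_surj x
    rw [Q.cl_s_iter, Q.cl_t_iter, Q.cl_le]
    exact (h m n).2 hmn a

/-- The index type of the class. -/
abbrev Ix (θ : ℝ) : Type 1 := {M : Mod // Good θ M}

end Pool.Agent.X228.MTL
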